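import Pool.Agent.Y112.KD.Main

/-!
# Endomorphisms with zero realisation of an object with a Kimura-finite square
-/

set_option autoImplicit false
set_option linter.unusedSectionVars false
set_option linter.unusedSimpArgs false
set_option backward.isDefEq.respectTransparency false
set_option backward.defeqAttrib.useBackward true

open CategoryTheory Limits MonoidalCategory
open Pool.Agent.Y112.SR Pool.Agent.Y112.KD
open Pool.Agent.Y116.MT (tr)

namespace Pool.Agent.Y97.PK

universe v u w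

open Functor.LaxMonoidal Functor.OplaxMonoidal

section

variable {C : Type u} [Category.{v} C] [Preadditive C] [Linear ℚ C] [MonoidalCategory C]
  [MonoidalPreadditive C] [MonoidalLinear ℚ C] [SymmetricCategory C]

/-- The projector onto the symmetric (`η = 1`) or exterior (`η = -1`) square. -/
noncomputable def sq (η : ℚ) (M : C) : M ⊗ M ⟶ M ⊗ M :=
  (2⁻¹ : ℚ) • (𝟙 _ + η • (β_ M M).hom)

lemma two_sq (η : ℚ) (M : C) : (2 : ℚ) • sq η M = 𝟙 _ + η • (β_ M M).hom := by
  rw [sq, smul_smul]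
  norm_num

lemma sq_nat (η : ℚ) {M : C} (g : M ⟶ M) : (g ⊗ₘ g) ≫ sq η M = sq η M ≫ (g ⊗ₘ g) := by
  simp only [sq, Linear.comp_smul, Linear.smul_comp, Preadditive.comp_add, Preadditive.add_comp,
    Category.comp_id, Category.id_comp, BraidedCategory.braiding_naturality]

lemma sq_nat' (η : ℚ) {M : C} (f g : M ⟶ M) : (f ⊗ₘ g) ≫ (β_ M M).hom = (β_ M M).hom ≫ (g ⊗ₘ f) :=
  BraidedCategory.braiding_naturality _ _

variable [RightRigidCategory C]

lemma ptr_sq_tensor (hU : UnitQ C) {η : ℚ} {M : C} (g : M ⟶ M) :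
    ptr ((g ⊗ₘ g) ≫ (𝟙 _ + η • (β_ M M).hom)) = trq hU M g • g + η • (g ≫ g) := by
  have h1 : (g ⊗ₘ g) ≫ (β_ M M).hom = g ▷ M ≫ (β_ M M).hom ≫ g ▷ M := by
    rw [MonoidalCategory.tensorHom_def, Category.assoc, BraidedCategory.braiding_naturality_right]
  rw [Preadditive.comp_add, Category.comp_id, Linear.comp_smul, ptr_add, ptr_smul,
    ptr_tensor g g _ (trq_spec hU g), h1, ptr_comp, ptr_symm, Category.id_comp]

variable {K : Type w} [Field K] (R : SuperRealisation C K)

lemma trq_zero_of_H (hU : UnitQ C) {X : C} {g : End X} (h : R.H.map g = 0) : trq hU X g = 0 := by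
  have h1 := inRad_of_H R hU h 1
  rwa [mul_one] at h1

include R in
/-- If the symmetric or exterior square of `M` is Kimura-finite then the endomorphisms of `M` with
zero realisation are nilpotent. -/
theorem nil_sq (hU : UnitQ C) {M S : C} {η : ℚ} (hη : η * η = 1) (i : S ⟶ M ⊗ M) (r : M ⊗ M ⟶ S)
    (hir : i ≫ r = 𝟙 S) (hri : r ≫ i = sq η M) (hS : KimuraFinite S) (f : End M)
    (hf : R.H.map f = 0) : IsNilpotent f := by
  have hη0 : η ≠ 0 := fun h => by simp [h] at hη
  have hH : ∀ g : M ⟶ M, R.H.map g = 0 → R.H.map (g ⊗ₘ g) = 0 := by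
    intro g hg
    rw [Functor.Monoidal.map_tensor, hg]
    simp
  let x : End S := i ≫ ((f : M ⟶ M) ⊗ₘ (f : M ⟶ M)) ≫ r
  have hx : R.H.map x = 0 := by
    change R.H.map (i ≫ ((f : M ⟶ M) ⊗ₘ (f : M ⟶ M)) ≫ r) = 0
    rw [Functor.map_comp, Functor.map_comp, hH f hf, zero_comp, comp_zero]
  obtain ⟨k, hk⟩ := nil_of_kimura R hU hS (inRad_of_H R hU hx)
  have hpow : ∀ k : ℕ, (x ^ k : End S) =
      (i ≫ (((f ^ k : End M) : M ⟶ M) ⊗ₘ ((f ^ k : End M) : M ⟶ M)) ≫ r : S ⟶ S) := by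
    intro k
    induction k with
    | zero =>
      have e1 : ((f ^ 0 : End M) : M ⟶ M) = 𝟙 M := rfl
      have e2 : (x ^ 0 : End S) = (𝟙 S : S ⟶ S) := rfl
      rw [e1, id_tensorHom_id, Category.id_comp, hir, e2]
    | succ k ih =>
      have e1 : ((f ^ (k + 1) : End M) : M ⟶ M) = (f : M ⟶ M) ≫ ((f ^ k : End M) : M ⟶ M) := by
        rw [pow_succ, End.mul_def]
      rw [pow_succ, End.mul_def, ih, e1, ← tensorHom_comp_tensorHom]
      change (i ≫ ((f : M ⟶ M) ⊗ₘ (f : M ⟶ M)) ≫ r) ≫ _ = _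
      simp only [Category.assoc]
      congr 1
      rw [reassoc_of% hri, ← reassoc_of% (sq_nat η ((f ^ k : End M) : M ⟶ M)), ← hri]
      simp only [Category.assoc, hir, Category.comp_id]
  have hk' : (x ^ (k + 1) : End S) = 0 := by rw [pow_succ, hk, zero_mul]
  rw [hpow] at hk'
  set g : M ⟶ M := (f ^ (k + 1) : End M) with hg
  have h1 : (g ⊗ₘ g) ≫ sq η M = 0 := by
    have h2 := congrArg (fun z => r ≫ z ≫ i) (hk' : i ≫ (g ⊗ₘ g) ≫ r = 0)
    simp only [Category.assoc, comp_zero, zero_comp] at h2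
    rw [hri, ← Category.assoc, hri] at h2
    rw [← Category.assoc, ← sq_nat, Category.assoc] at h2
    have h3 : sq η M ≫ sq η M = sq η M := by
      rw [← hri]
      simp only [Category.assoc]
      rw [reassoc_of% hir]
    rwa [h3] at h2
  have h2 : (g ⊗ₘ g) ≫ (𝟙 _ + η • (β_ M M).hom) = 0 := by
    rw [← two_sq, Linear.comp_smul, h1, smul_zero]
  have hHg : R.H.map g = 0 := by
    have e1 : g = (f : M ⟶ M) ≫ ((f ^ k : End M) : M ⟶ M) := by
      rw [hg, pow_succ, End.mul_def]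
    rw [e1, Functor.map_comp, hf, zero_comp]
  have h3 := ptr_sq_tensor hU (η := η) g
  rw [h2, trq_zero_of_H R hU hHg, zero_smul, zero_add] at h3
  have h4 : ptr (0 : M ⊗ M ⟶ M ⊗ M) = 0 := (ptrL M M).map_zero
  rw [h4] at h3
  have h5 := congrArg (fun z => η⁻¹ • z) h3
  simp only [smul_smul, inv_mul_cancel₀ hη0, one_smul, smul_zero] at h5
  refine ⟨(k + 1) + (k + 1), ?_⟩
  rw [pow_add, End.mul_def]
  exact h5.symm

end

end Pool.Agent.Y97.PK
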