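import Pool.Agent.Y97.PK.Rec
import Pool.Agent.Y97.PK.Nil

/-!
# Operators on pairs between an antisymmetrizer and a symmetrizer
-/

set_option autoImplicit false
set_option linter.unusedSectionVars false
set_option linter.unusedSimpArgs false

open CategoryTheory Limits MonoidalCategory
open Pool.Agent.Y112.SR Pool.Agent.Y112.KD
open Pool.Agent.Y116.MT (tr)

namespace Pool.Agent.Y97.PK

universe v u w

section

variable {C : Type u} [Category.{v} C] [MonoidalCategory C] [SymmetricCategory C]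

/-- The inverse of the comparison of the tensor powers of a tensor product. -/
def unz (A B : C) : ∀ n : ℕ, (tp A n ⊗ tp B n ⟶ tp (A ⊗ B) n)
  | 0 => (λ_ (𝟙_ C)).hom
  | n + 1 => tensorδ (tp A n) (tp B n) A B ≫ (unz A B n ▷ (A ⊗ B))

lemma unz_succ (A B : C) (n : ℕ) : unz A B (n + 1) =
    tensorδ (tp A n) (tp B n) A B ≫ (unz A B n ▷ (A ⊗ B)) := rfl

lemma zip_unz (A B : C) (n : ℕ) : zip A B n ≫ unz A B n = 𝟙 _ := by
  induction n with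
  | zero => simp [zip, unz]
  | succ n ih =>
    rw [zip_succ, unz_succ, Category.assoc, tensorμ_tensorδ_assoc, ← comp_whiskerRight, ih,
      id_whiskerRight]

lemma unz_zip (A B : C) (n : ℕ) : unz A B n ≫ zip A B n = 𝟙 _ := by
  induction n with
  | zero => simp [zip, unz]
  | succ n ih =>
    rw [zip_succ, unz_succ, Category.assoc, ← comp_whiskerRight_assoc, ih, id_whiskerRight,
      Category.id_comp, tensorδ_tensorμ]

lemma delta_nat {X₁ X₂ Y₁ Y₂ : C} (f₁ : X₁ ⟶ Y₁) (f₂ : X₂ ⟶ Y₂) (Z₁ Z₂ : C) :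
    (f₁ ▷ Z₁ ⊗ₘ f₂ ▷ Z₂) ≫ tensorδ Y₁ Y₂ Z₁ Z₂ =
      tensorδ X₁ X₂ Z₁ Z₂ ≫ (f₁ ⊗ₘ f₂) ▷ (Z₁ ⊗ Z₂) := by
  have h1 := congrArg (fun z => tensorδ X₁ X₂ Z₁ Z₂ ≫ z ≫ tensorδ Y₁ Y₂ Z₁ Z₂)
    (tensorμ_natural_left f₁ f₂ Z₁ Z₂)
  simp only [Category.assoc, tensorμ_tensorδ, Category.comp_id, tensorδ_tensorμ_assoc] at h1
  exact h1.symm

/-- The exchange of the entries of two pairs. -/
lemma pair_key (M : C) : ((β_ M M).hom ⊗ₘ (β_ M M).hom) ≫ tensorμ M M M M ≫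
    ((β_ M M).hom ⊗ₘ 𝟙 (M ⊗ M)) ≫ tensorδ M M M M =
    tensorμ M M M M ≫ (𝟙 (M ⊗ M) ⊗ₘ (β_ M M).hom) ≫ tensorδ M M M M ≫
      ((β_ M M).hom ⊗ₘ (β_ M M).hom) := by
  have h1 := SymmetricCategory.tensorμ_braid_swap M M
  have h2 : tensorδ M M M M ≫ ((β_ M M).hom ⊗ₘ (β_ M M).hom) =
      (β_ (M ⊗ M) (M ⊗ M)).hom ≫ tensorδ M M M M := by
    have h3 := congrArg (fun z => tensorδ M M M M ≫ z ≫ tensorδ M M M M) h1
    simp only [Category.assoc, tensorμ_tensorδ, Category.comp_id, tensorδ_tensorμ_assoc] at h3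
    exact h3.symm
  rw [← reassoc_of% h1, h2, ← BraidedCategory.braiding_naturality_assoc]

/-- The comparison for the last two pairs. -/
lemma zip_two (M : C) (n : ℕ) : zip M M (n + 2) =
    (((zip M M n ▷ (M ⊗ M)) ▷ (M ⊗ M)) ≫ (α_ (tp M n ⊗ tp M n) (M ⊗ M) (M ⊗ M)).hom) ≫
      (((tp M n ⊗ tp M n) ◁ tensorμ M M M M) ≫ tensorμ (tp M n) (tp M n) (M ⊗ M) (M ⊗ M) ≫
        ((α_ (tp M n) M M).inv ⊗ₘ (α_ (tp M n) M M).inv)) := by
  have h1 := tensor_associativity (tp M n) (tp M n) M M M M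
  have h2 : (tensorμ (tp M n) (tp M n) M M ▷ (M ⊗ M)) ≫
      tensorμ (tp M n ⊗ M) (tp M n ⊗ M) M M =
      (α_ (tp M n ⊗ tp M n) (M ⊗ M) (M ⊗ M)).hom ≫ ((tp M n ⊗ tp M n) ◁ tensorμ M M M M) ≫
      tensorμ (tp M n) (tp M n) (M ⊗ M) (M ⊗ M) ≫
        ((α_ (tp M n) M M).inv ⊗ₘ (α_ (tp M n) M M).inv) := by
    have h3 := congrArg (fun z => z ≫ ((α_ (tp M n) M M).inv ⊗ₘ (α_ (tp M n) M M).inv)) h1
    simpa using h3
  rw [zip_succ, zip_succ, comp_whiskerRight, Category.assoc, Category.assoc, ← h2]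

lemma J_nat (U V M : C) (f g : M ⊗ M ⟶ M ⊗ M) :
    ((U ⊗ V) ◁ (tensorμ M M M M ≫ (f ⊗ₘ g) ≫ tensorδ M M M M)) ≫
      (((U ⊗ V) ◁ tensorμ M M M M) ≫ tensorμ U V (M ⊗ M) (M ⊗ M) ≫
        ((α_ U M M).inv ⊗ₘ (α_ V M M).inv)) =
    (((U ⊗ V) ◁ tensorμ M M M M) ≫ tensorμ U V (M ⊗ M) (M ⊗ M) ≫
        ((α_ U M M).inv ⊗ₘ (α_ V M M).inv)) ≫
      (((α_ U M M).hom ≫ U ◁ f ≫ (α_ U M M).inv) ⊗ₘ
        ((α_ V M M).hom ≫ V ◁ g ≫ (α_ V M M).inv)) := by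
  have h1 : ((U ⊗ V) ◁ (tensorμ M M M M ≫ (f ⊗ₘ g) ≫ tensorδ M M M M)) ≫
      ((U ⊗ V) ◁ tensorμ M M M M) =
      ((U ⊗ V) ◁ tensorμ M M M M) ≫ ((U ⊗ V) ◁ (f ⊗ₘ g)) := by
    rw [← MonoidalCategory.whiskerLeft_comp, ← MonoidalCategory.whiskerLeft_comp]
    simp
  rw [reassoc_of% h1, tensorμ_natural_right_assoc]
  simp only [Category.assoc, tensorHom_comp_tensorHom, Iso.inv_hom_id_assoc]

/-- Exchanging the entries of the last two pairs. -/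
lemma T_key (M : C) (n : ℕ) :
    (((tp (M ⊗ M) n ◁ (β_ M M).hom) ⊗ₘ (β_ M M).hom) ≫ zip M M (n + 2)) ≫
      (sw (tp M n) M ⊗ₘ 𝟙 (tp M (n + 2))) =
    zip M M (n + 2) ≫ (𝟙 (tp M (n + 2)) ⊗ₘ sw (tp M n) M) ≫ unz M M (n + 2) ≫
      ((tp (M ⊗ M) n ◁ (β_ M M).hom) ⊗ₘ (β_ M M).hom) ≫ zip M M (n + 2) := by
  set U := tp M n with hU
  set Z : tp (M ⊗ M) (n + 2) ⟶ tp (M ⊗ M) (n + 2) :=
    ((tp (M ⊗ M) n ◁ (β_ M M).hom) ⊗ₘ (β_ M M).hom) with hZ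
  set J := (((U ⊗ U) ◁ tensorμ M M M M) ≫ tensorμ U U (M ⊗ M) (M ⊗ M) ≫
        ((α_ U M M).inv ⊗ₘ (α_ U M M).inv)) with hJ
  set ζ := ((zip M M n ▷ (M ⊗ M)) ▷ (M ⊗ M)) ≫ (α_ (U ⊗ U) (M ⊗ M) (M ⊗ M)).hom with hζ
  set ζ' := (α_ (U ⊗ U) (M ⊗ M) (M ⊗ M)).inv ≫ ((unz M M n ▷ (M ⊗ M)) ▷ (M ⊗ M)) with hζ'
  have hz : zip M M (n + 2) = ζ ≫ J := zip_two M n
  have h1 : ζ ≫ ζ' = 𝟙 _ := by
    rw [hζ, hζ', Category.assoc, Iso.hom_inv_id_assoc, ← comp_whiskerRight, ← comp_whiskerRight,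
      zip_unz, id_whiskerRight, id_whiskerRight]
  have h2 : ζ' ≫ ζ = 𝟙 _ := by
    rw [hζ, hζ', Category.assoc, ← comp_whiskerRight_assoc, ← comp_whiskerRight,
      unz_zip, id_whiskerRight, id_whiskerRight, Category.id_comp, Iso.inv_hom_id]
  have h3 : J ≫ unz M M (n + 2) = ζ' := by
    have h4 := zip_unz M M (n + 2)
    rw [hz, Category.assoc] at h4
    have h5 := congrArg (fun z => ζ' ≫ z) h4
    simpa [reassoc_of% h2] using h5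
  have h4 : Z ≫ ζ = ζ ≫ ((U ⊗ U) ◁ ((β_ M M).hom ⊗ₘ (β_ M M).hom)) := by
    rw [hZ, hζ, Category.assoc]
    have e1 : ((tp (M ⊗ M) n ◁ (β_ M M).hom) ⊗ₘ (β_ M M).hom) ≫
        ((zip M M n ▷ (M ⊗ M)) ▷ (M ⊗ M)) = ((zip M M n ▷ (M ⊗ M)) ▷ (M ⊗ M)) ≫
        (((U ⊗ U) ◁ (β_ M M).hom) ⊗ₘ (β_ M M).hom) := by
      rw [← tensorHom_id (zip M M n ▷ (M ⊗ M)), tensorHom_comp_tensorHom,
        tensorHom_comp_tensorHom, whisker_exchange, Category.comp_id, Category.id_comp]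
    rw [reassoc_of% e1]
    congr 1
    rw [← id_tensorHom, ← id_tensorHom, associator_naturality]
  have hsw : sw U M = (α_ U M M).hom ≫ U ◁ (β_ M M).hom ≫ (α_ U M M).inv := rfl
  have hid : 𝟙 (tp M (n + 2)) = (α_ U M M).hom ≫ U ◁ 𝟙 (M ⊗ M) ≫ (α_ U M M).inv := by
    rw [MonoidalCategory.whiskerLeft_id, Category.id_comp, Iso.hom_inv_id]
  have h5 : J ≫ (sw U M ⊗ₘ 𝟙 (tp M (n + 2))) =
      ((U ⊗ U) ◁ (tensorμ M M M M ≫ ((β_ M M).hom ⊗ₘ 𝟙 (M ⊗ M)) ≫ tensorδ M M M M)) ≫ J := by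
    rw [hsw, hid]
    exact (J_nat U U M _ _).symm
  have h6 : J ≫ (𝟙 (tp M (n + 2)) ⊗ₘ sw U M) =
      ((U ⊗ U) ◁ (tensorμ M M M M ≫ (𝟙 (M ⊗ M) ⊗ₘ (β_ M M).hom) ≫ tensorδ M M M M)) ≫ J := by
    rw [hsw, hid]
    exact (J_nat U U M _ _).symm
  rw [hz]
  simp only [Category.assoc]
  have h7 : ((U ⊗ U) ◁ ((β_ M M).hom ⊗ₘ (β_ M M).hom)) ≫
      ((U ⊗ U) ◁ (tensorμ M M M M ≫ ((β_ M M).hom ⊗ₘ 𝟙 (M ⊗ M)) ≫ tensorδ M M M M)) =
      ((U ⊗ U) ◁ (tensorμ M M M M ≫ (𝟙 (M ⊗ M) ⊗ₘ (β_ M M).hom) ≫ tensorδ M M M M)) ≫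
        ((U ⊗ U) ◁ ((β_ M M).hom ⊗ₘ (β_ M M).hom)) := by
    rw [← MonoidalCategory.whiskerLeft_comp, ← MonoidalCategory.whiskerLeft_comp, pair_key]
    simp only [Category.assoc]
  rw [h5, reassoc_of% h4, reassoc_of% h6, reassoc_of% h3, reassoc_of% h4, reassoc_of% h2,
    reassoc_of% h7]

end

section

variable {C : Type u} [Category.{v} C] [Preadditive C] [Linear ℚ C] [MonoidalCategory C]
  [MonoidalPreadditive C] [MonoidalLinear ℚ C] [SymmetricCategory C]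

/-- An operator on pairs between the two (anti)symmetrizers. -/
noncomputable def br (θ a : ℚ) (M : C) (n : ℕ) (Z : tp (M ⊗ M) n ⟶ tp (M ⊗ M) n) :
    tp M n ⊗ tp M n ⟶ tp M n ⊗ tp M n :=
  (asym θ M n ⊗ₘ asym a M n) ≫ unz M M n ≫ Z ≫ zip M M n ≫ (asym θ M n ⊗ₘ asym a M n)

lemma br_add (θ a : ℚ) (M : C) (n : ℕ) (Z Z' : tp (M ⊗ M) n ⟶ tp (M ⊗ M) n) :
    br θ a M n (Z + Z') = br θ a M n Z + br θ a M n Z' := by
  simp only [br, Preadditive.add_comp, Preadditive.comp_add]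

lemma br_smul (θ a : ℚ) (M : C) (n : ℕ) (c : ℚ) (Z : tp (M ⊗ M) n ⟶ tp (M ⊗ M) n) :
    br θ a M n (c • Z) = c • br θ a M n Z := by
  simp only [br, Linear.smul_comp, Linear.comp_smul]

lemma br_one {θ a : ℚ} (hθ : θ * θ = 1) (ha : a * a = 1) (M : C) (n : ℕ) :
    br θ a M n (𝟙 _) = asym θ M n ⊗ₘ asym a M n := by
  rw [br, Category.id_comp, ← Category.assoc (unz M M n), unz_zip, Category.id_comp,
    tensorHom_comp_tensorHom, asym_idem hθ, asym_idem ha]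

lemma br_swap {θ a : ℚ} (hθ : θ * θ = 1) (ha : a * a = 1) (h : θ * a = -1) (M : C) {n : ℕ}
    {s : tp (M ⊗ M) n ⟶ tp (M ⊗ M) n} (hs : IsSwap (M ⊗ M) n s)
    (Z : tp (M ⊗ M) n ⟶ tp (M ⊗ M) n) : br θ a M n (s ≫ Z ≫ s) = br θ a M n Z := by
  obtain ⟨s', s'', h1, h2, h3⟩ := zip_swap M M hs
  have h4 : s ≫ zip M M n ≫ (asym θ M n ⊗ₘ asym a M n) =
      (-1 : ℚ) • (zip M M n ≫ (asym θ M n ⊗ₘ asym a M n)) := by
    rw [← Category.assoc, h3, Category.assoc, tensorHom_comp_tensorHom, (swap_asym hθ M h1).1,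
      (swap_asym ha M h2).1]
    simp only [MonoidalCategory.tensorHom_def, MonoidalLinear.smul_whiskerRight,
      MonoidalLinear.whiskerLeft_smul, Linear.smul_comp, Linear.comp_smul, smul_smul,
      mul_comm a θ, h]
  have h5 : (asym θ M n ⊗ₘ asym a M n) ≫ unz M M n ≫ s =
      (-1 : ℚ) • ((asym θ M n ⊗ₘ asym a M n) ≫ unz M M n) := by
    have e1 : unz M M n ≫ s = (s' ⊗ₘ s'') ≫ unz M M n := by
      have e2 := congrArg (fun z => unz M M n ≫ z ≫ unz M M n) h3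
      simp only [Category.assoc, zip_unz, Category.comp_id] at e2
      rw [e2, ← Category.assoc (unz M M n), unz_zip, Category.id_comp]
    rw [e1, ← Category.assoc, tensorHom_comp_tensorHom, (swap_asym hθ M h1).2,
      (swap_asym ha M h2).2]
    simp only [MonoidalCategory.tensorHom_def, MonoidalLinear.smul_whiskerRight,
      MonoidalLinear.whiskerLeft_smul, Linear.smul_comp, Linear.comp_smul, smul_smul,
      mul_comm a θ, h]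
  have e3 : br θ a M n (s ≫ Z ≫ s) = ((asym θ M n ⊗ₘ asym a M n) ≫ unz M M n ≫ s) ≫ Z ≫
      (s ≫ zip M M n ≫ (asym θ M n ⊗ₘ asym a M n)) := by
    simp only [br, Category.assoc]
  rw [e3, h4, h5, Linear.smul_comp, Linear.comp_smul, Linear.comp_smul, smul_smul, br]
  norm_num

/-- The recursion. -/
lemma br_tensor {θ a : ℚ} (hθ : θ * θ = 1) (ha : a * a = 1) (M : C) (n : ℕ)
    (Z : tp (M ⊗ M) n ⟶ tp (M ⊗ M) n) (g : M ⊗ M ⟶ M ⊗ M) :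
    br θ a M (n + 1) (Z ⊗ₘ g) = (asym θ M (n + 1) ⊗ₘ asym a M (n + 1)) ≫
      tensorδ (tp M n) (tp M n) M M ≫ (br θ a M n Z ⊗ₘ g) ≫ tensorμ (tp M n) (tp M n) M M ≫
      (asym θ M (n + 1) ⊗ₘ asym a M (n + 1)) := by
  have h1 : ((asym θ M n ▷ M) ⊗ₘ (asym a M n ▷ M)) ≫ (asym θ M (n + 1) ⊗ₘ asym a M (n + 1)) =
      asym θ M (n + 1) ⊗ₘ asym a M (n + 1) := by
    rw [tensorHom_comp_tensorHom, (absorb hθ M n).1, (absorb ha M n).1]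
  have h2 : (asym θ M (n + 1) ⊗ₘ asym a M (n + 1)) ≫ ((asym θ M n ▷ M) ⊗ₘ (asym a M n ▷ M)) =
      asym θ M (n + 1) ⊗ₘ asym a M (n + 1) := by
    rw [tensorHom_comp_tensorHom, (absorb hθ M n).2, (absorb ha M n).2]
  have h3 : (br θ a M n Z ⊗ₘ g) = ((asym θ M n ⊗ₘ asym a M n) ▷ (M ⊗ M)) ≫
      (unz M M n ▷ (M ⊗ M)) ≫ (Z ⊗ₘ g) ≫ (zip M M n ▷ (M ⊗ M)) ≫
      ((asym θ M n ⊗ₘ asym a M n) ▷ (M ⊗ M)) := by
    simp only [br, ← tensorHom_id, tensorHom_comp_tensorHom, Category.id_comp, Category.comp_id,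
      Category.assoc]
  rw [h3]
  simp only [Category.assoc]
  rw [tensorμ_natural_left_assoc, h1, ← reassoc_of% (delta_nat (asym θ M n) (asym a M n) M M),
    reassoc_of% h2, br, unz_succ, zip_succ]
  simp only [Category.assoc]

/-- The operator on the first pair. -/
def fs (M : C) : ∀ n : ℕ, tp (M ⊗ M) (n + 1) ⟶ tp (M ⊗ M) (n + 1)
  | 0 => tp (M ⊗ M) 0 ◁ (β_ M M).hom
  | n + 1 => fs M n ▷ (M ⊗ M)

lemma br_last {θ a : ℚ} (hθ : θ * θ = 1) (ha : a * a = 1) (h : θ * a = -1) (M : C) (n : ℕ) :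
    br θ a M (n + 1) (tp (M ⊗ M) n ◁ (β_ M M).hom) = br θ a M (n + 1) (fs M n) := by
  induction n with
  | zero => rfl
  | succ n ih =>
    have h1 := br_swap hθ ha h M (IsSwap.last (X := M ⊗ M) n)
      (tp (M ⊗ M) (n + 1) ◁ (β_ M M).hom)
    have h2 : sw (tp (M ⊗ M) n) (M ⊗ M) ≫ (tp (M ⊗ M) (n + 1) ◁ (β_ M M).hom) ≫
        sw (tp (M ⊗ M) n) (M ⊗ M) = (tp (M ⊗ M) n ◁ (β_ M M).hom) ▷ (M ⊗ M) := by
      have h3 := sw_nat_last (tp (M ⊗ M) n) (β_ M M).hom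
      have h4 : (tp (M ⊗ M) (n + 1) ◁ (β_ M M).hom) ≫ sw (tp (M ⊗ M) n) (M ⊗ M) =
          sw (tp (M ⊗ M) n) (M ⊗ M) ≫ (tp (M ⊗ M) n ◁ (β_ M M).hom) ▷ (M ⊗ M) := h3
      rw [h4, ← Category.assoc, sw_sw, Category.id_comp]
    rw [← h1, h2, ← tensorHom_id, br_tensor hθ ha, ih, ← br_tensor hθ ha, tensorHom_id]
    rfl

lemma br_two {θ a : ℚ} (hθ : θ * θ = 1) (ha : a * a = 1) (h : θ * a = -1) (M : C) (n : ℕ) :
    br θ a M (n + 2) ((tp (M ⊗ M) n ◁ (β_ M M).hom) ⊗ₘ (β_ M M).hom) = 0 := by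
  set Z : tp (M ⊗ M) (n + 2) ⟶ tp (M ⊗ M) (n + 2) :=
    ((tp (M ⊗ M) n ◁ (β_ M M).hom) ⊗ₘ (β_ M M).hom) with hZ
  set A := asym θ M (n + 2) with hA
  set B := asym a M (n + 2) with hB
  have h1 : (sw (tp M n) M ⊗ₘ 𝟙 (tp M (n + 2))) ≫ (A ⊗ₘ B) = θ • (A ⊗ₘ B) := by
    rw [tensorHom_comp_tensorHom, Category.id_comp, (swap_asym hθ M (IsSwap.last n)).1]
    simp only [MonoidalCategory.tensorHom_def, MonoidalLinear.smul_whiskerRight,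
      Linear.smul_comp, hA]
  have h2 : (A ⊗ₘ B) ≫ (𝟙 (tp M (n + 2)) ⊗ₘ sw (tp M n) M) = a • (A ⊗ₘ B) := by
    rw [tensorHom_comp_tensorHom, Category.comp_id, (swap_asym ha M (IsSwap.last n)).2]
    simp only [MonoidalCategory.tensorHom_def, MonoidalLinear.whiskerLeft_smul,
      Linear.comp_smul, hB]
  have h3 := T_key M n
  rw [← hZ] at h3
  have h4 : θ • br θ a M (n + 2) Z = a • br θ a M (n + 2) Z := by
    have e1 : θ • br θ a M (n + 2) Z = (A ⊗ₘ B) ≫ unz M M (n + 2) ≫ ((Z ≫ zip M M (n + 2)) ≫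
        (sw (tp M n) M ⊗ₘ 𝟙 (tp M (n + 2)))) ≫ (A ⊗ₘ B) := by
      simp only [Category.assoc]
      rw [h1]
      simp only [Linear.comp_smul, br, ← hA, ← hB]
    have e2 : a • br θ a M (n + 2) Z = ((A ⊗ₘ B) ≫ (𝟙 (tp M (n + 2)) ⊗ₘ sw (tp M n) M)) ≫
        unz M M (n + 2) ≫ Z ≫ zip M M (n + 2) ≫ (A ⊗ₘ B) := by
      rw [h2, Linear.smul_comp, br]
    rw [e1, h3, e2]
    simp only [Category.assoc]
    rw [← Category.assoc (unz M M (n + 2)) (zip M M (n + 2)), unz_zip, Category.id_comp]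
  have h5 : (θ - a) • br θ a M (n + 2) Z = 0 := by rw [sub_smul, h4, sub_self]
  have h6 : θ - a ≠ 0 := by
    intro h0
    have : θ = a := by linarith
    rw [this, ha] at h
    norm_num at h
  have h7 := congrArg (fun z => (θ - a)⁻¹ • z) h5
  simpa only [smul_smul, inv_mul_cancel₀ h6, one_smul, smul_zero] using h7

lemma br_step {θ a : ℚ} (hθ : θ * θ = 1) (ha : a * a = 1) (M : C) (n : ℕ)
    (Z W W' : tp (M ⊗ M) n ⟶ tp (M ⊗ M) n) (c c' : ℚ) (g : M ⊗ M ⟶ M ⊗ M)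
    (hZ : br θ a M n Z = c • (br θ a M n W + c' • br θ a M n W')) :
    br θ a M (n + 1) (Z ⊗ₘ g) =
      c • (br θ a M (n + 1) (W ⊗ₘ g) + c' • br θ a M (n + 1) (W' ⊗ₘ g)) := by
  rw [br_tensor hθ ha, br_tensor hθ ha, br_tensor hθ ha, hZ]
  simp only [MonoidalCategory.tensorHom_def, MonoidalLinear.smul_whiskerRight,
    MonoidalPreadditive.add_whiskerRight, Linear.smul_comp, Linear.comp_smul,
    Preadditive.add_comp, Preadditive.comp_add, smul_add, Category.assoc]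

/-- The expansion of the projectors onto the squares. -/
lemma br_sq {θ a η : ℚ} (hθ : θ * θ = 1) (ha : a * a = 1) (h : θ * a = -1)
    (M : C) (n : ℕ) : br θ a M (n + 1) (tpm (sq η M) (n + 1)) = (2⁻¹ : ℚ) ^ (n + 1) •
      (br θ a M (n + 1) (𝟙 _) + (η * ((n : ℚ) + 1)) • br θ a M (n + 1) (fs M n)) := by
  induction n with
  | zero =>
    have e1 : tpm (sq η M) 1 = (2⁻¹ : ℚ) • (𝟙 _ + η • (tp (M ⊗ M) 0 ◁ (β_ M M).hom)) := by
      have e2 : tpm (sq η M) 1 = 𝟙 (𝟙_ C) ⊗ₘ sq η M := rfl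
      rw [e2, id_tensorHom, sq, MonoidalLinear.whiskerLeft_smul,
        MonoidalPreadditive.whiskerLeft_add, MonoidalLinear.whiskerLeft_smul,
        MonoidalCategory.whiskerLeft_id]
    rw [e1, br_smul, br_add, br_smul, br_last hθ ha h]
    simp
  | succ n ih =>
    have e0 : ∀ T : tp (M ⊗ M) (n + 1) ⟶ tp (M ⊗ M) (n + 1), T ⊗ₘ sq η M =
        (2⁻¹ : ℚ) • ((T ⊗ₘ 𝟙 (M ⊗ M)) + η • (T ⊗ₘ (β_ M M).hom)) := by
      intro T
      rw [sq]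
      simp only [MonoidalCategory.tensorHom_def, MonoidalLinear.whiskerLeft_smul,
        MonoidalPreadditive.whiskerLeft_add, Linear.comp_smul, Preadditive.comp_add]
    have e1 : tpm (sq η M) (n + 2) = tpm (sq η M) (n + 1) ⊗ₘ sq η M := rfl
    have t1 := br_step hθ ha M (n + 1) _ _ _ _ _ (𝟙 (M ⊗ M)) ih
    have t2 := br_step hθ ha M (n + 1) _ _ _ _ _ (β_ M M).hom ih
    have t3 : br θ a M (n + 2) (𝟙 (tp (M ⊗ M) (n + 1)) ⊗ₘ (β_ M M).hom) =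
        br θ a M (n + 2) (fs M (n + 1)) := by
      rw [id_tensorHom]
      exact br_last hθ ha h M (n + 1)
    have t4 : br θ a M (n + 2) (fs M n ⊗ₘ (β_ M M).hom) = 0 := by
      rw [br_tensor hθ ha, ← br_last hθ ha h, ← br_tensor hθ ha]
      exact br_two hθ ha h M n
    have t5 : (𝟙 (tp (M ⊗ M) (n + 1)) ⊗ₘ 𝟙 (M ⊗ M)) = 𝟙 (tp (M ⊗ M) (n + 2)) :=
      id_tensorHom_id _ _
    have t6 : (fs M n ⊗ₘ 𝟙 (M ⊗ M)) = fs M (n + 1) := tensorHom_id _ _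
    rw [t5, t6] at t1
    rw [t3, t4, smul_zero, add_zero] at t2
    rw [e1, e0, br_smul, br_add, br_smul, t1, t2, pow_succ (2⁻¹ : ℚ) (n + 1)]
    push_cast
    module

variable [RightRigidCategory C]

/-- The exchange of the last factor of the first group with the only factor of the second. -/
def gb (M : C) : ∀ n : ℕ, tp M (n + 1) ⊗ tp M 1 ⟶ tp M (n + 1) ⊗ tp M 1
  | 0 => unz M M 1 ≫ (tp (M ⊗ M) 0 ◁ (β_ M M).hom) ≫ zip M M 1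
  | n + 1 => ll M (gb M n)

lemma ctr_gb_zero (M : C) : ctr (gb M 0) = 𝟙 _ := by
  have h0 : gb M 0 = tensorδ (𝟙_ C) (𝟙_ C) M M ≫ ((𝟙_ C ⊗ 𝟙_ C) ◁ (β_ M M).hom) ≫
      tensorμ (𝟙_ C) (𝟙_ C) M M := by
    have e1 : unz M M 1 = tensorδ (𝟙_ C) (𝟙_ C) M M ≫ ((λ_ (𝟙_ C)).hom ▷ (M ⊗ M)) := rfl
    have e2 : zip M M 1 = ((λ_ (𝟙_ C)).inv ▷ (M ⊗ M)) ≫ tensorμ (𝟙_ C) (𝟙_ C) M M := rfl
    have e3 : ((λ_ (𝟙_ C)).hom ▷ (M ⊗ M)) ≫ (𝟙_ C ◁ (β_ M M).hom) ≫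
        ((λ_ (𝟙_ C)).inv ▷ (M ⊗ M)) = (𝟙_ C ⊗ 𝟙_ C) ◁ (β_ M M).hom := by
      rw [← whisker_exchange_assoc, ← comp_whiskerRight, Iso.hom_inv_id, id_whiskerRight,
        Category.comp_id]
    have e4 : gb M 0 = unz M M 1 ≫ (𝟙_ C ◁ (β_ M M).hom) ≫ zip M M 1 := rfl
    rw [e4, e1, e2]
    simp only [Category.assoc]
    rw [reassoc_of% e3]
  have h1 : (α_ (𝟙_ C ⊗ M) (𝟙_ C) M).hom ≫ gb M 0 ≫ (α_ (𝟙_ C ⊗ M) (𝟙_ C) M).inv =
      (lm (𝟙_ C) M (𝟙_ C) ▷ M) ≫ sw (𝟙_ C ⊗ 𝟙_ C) M ≫ (lm (𝟙_ C) (𝟙_ C) M ▷ M) := by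
    rw [h0, delta_eq, mu_eq', sw]
    simp only [Category.assoc, Iso.hom_inv_id_assoc, Iso.hom_inv_id, Category.comp_id]
  rw [ctr, h1, ptr_comp', ptr_sw, Category.id_comp, lm_lm]

lemma ctr_gb (M : C) (n : ℕ) : ctr (gb M n) = 𝟙 _ := by
  induction n with
  | zero => exact ctr_gb_zero M
  | succ n ih =>
    have h1 : ctr (ll M (gb M n)) = ll M (ctr (gb M n)) := ctr_ll _
    have h2 : gb M (n + 1) = ll M (gb M n) := rfl
    rw [h2, h1, ih, ll_id]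

lemma ll_YY (a : ℚ) (U X : C) (g : U ⊗ tp X 1 ⟶ U ⊗ tp X 1) (k : ℕ) :
    ll X (YY a U X g k) = YY a (U ⊗ X) X (ll X g) k := by
  induction k with
  | zero =>
    rw [YY_zero, YY_zero, ll]
    simp
  | succ k ih =>
    rcases k with - | k
    · rfl
    · rw [YY_succ, YY_succ, ll_comp, ll_comp, ll_right, ll_rr, ih]

/-- The comparison of the operator on the first pair with the recursive construction. -/
lemma br_fs {θ a : ℚ} (hθ : θ * θ = 1) (ha : a * a = 1) (M : C) (n : ℕ) :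
    br θ a M (n + 1) (fs M n) = (asym θ M (n + 1) ▷ tp M (n + 1)) ≫
      YY a (tp M (n + 1)) M (gb M n) (n + 1) ≫ (asym θ M (n + 1) ▷ tp M (n + 1)) := by
  induction n with
  | zero =>
    have h1 : YY a (tp M 1) M (gb M 0) 1 = gb M 0 := rfl
    rw [h1, br, asym_one, asym_one, id_whiskerRight, id_tensorHom_id]
    simp only [Category.id_comp, Category.comp_id]
    rfl
  | succ n ih =>
    have h1 : fs M (n + 1) = fs M n ⊗ₘ 𝟙 (M ⊗ M) := (tensorHom_id _ _).symm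
    rw [h1, br_tensor hθ ha, tensorHom_id, ← Category.assoc (tensorδ _ _ _ _), ← Category.assoc
      (tensorδ _ _ _ _ ≫ _), Category.assoc (tensorδ _ _ _ _), hat_eq, ih, ll_comp, ll_comp,
      ll_left, ll_YY, rr_comp, rr_comp, rr_left]
    have h2 : YY a (tp M (n + 2)) M (gb M (n + 1)) (n + 2) = (tp M (n + 2) ◁ asym a M (n + 2)) ≫
        rr M (YY a (tp M (n + 2)) M (gb M (n + 1)) (n + 1)) ≫
        (tp M (n + 2) ◁ asym a M (n + 2)) := rfl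
    have h3 : (asym θ M (n + 2) ⊗ₘ asym a M (n + 2)) ≫
        ((asym θ M (n + 1) ▷ M) ▷ (tp M (n + 1) ⊗ M)) =
        (asym θ M (n + 2) ▷ tp M (n + 2)) ≫ (tp M (n + 2) ◁ asym a M (n + 2)) := by
      rw [← tensorHom_id, tensorHom_comp_tensorHom, (absorb hθ M (n + 1)).2, Category.comp_id,
        MonoidalCategory.tensorHom_def]
    have h4 : ((asym θ M (n + 1) ▷ M) ▷ (tp M (n + 1) ⊗ M)) ≫
        (asym θ M (n + 2) ⊗ₘ asym a M (n + 2)) =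
        (tp M (n + 2) ◁ asym a M (n + 2)) ≫ (asym θ M (n + 2) ▷ tp M (n + 2)) := by
      rw [← tensorHom_id, tensorHom_comp_tensorHom, (absorb hθ M (n + 1)).1, Category.id_comp,
        MonoidalCategory.tensorHom_def']
    rw [h2]
    simp only [Category.assoc]
    rw [h4, reassoc_of% h3]
    rfl

end

end Pool.Agent.Y97.PK
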