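import Pool.Agent.Y97.PK.Ptr

/-!
# Contractions of the last factor of the second group
-/

set_option autoImplicit false
set_option linter.unusedSectionVars false
set_option linter.unusedSimpArgs false

open CategoryTheory Limits MonoidalCategory
open Pool.Agent.Y112.SR Pool.Agent.Y112.KD
open Pool.Agent.Y116.MT (tr)

namespace Pool.Agent.Y97.PK

universe v u w

section

variable {C : Type u} [Category.{v} C] [MonoidalCategory C] [SymmetricCategory C]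

/-- An additional factor of the second group. -/
def rr {U V : C} (X : C) (z : U ⊗ V ⟶ U ⊗ V) : U ⊗ (V ⊗ X) ⟶ U ⊗ (V ⊗ X) :=
  (α_ U V X).inv ≫ (z ▷ X) ≫ (α_ U V X).hom

/-- An additional factor of the first group. -/
def ll {U V : C} (X : C) (z : U ⊗ V ⟶ U ⊗ V) : (U ⊗ X) ⊗ V ⟶ (U ⊗ X) ⊗ V :=
  lm U X V ≫ (z ▷ X) ≫ lm U V X

lemma ll_id (U V X : C) : ll X (𝟙 (U ⊗ V)) = 𝟙 _ := by
  rw [ll, id_whiskerRight, Category.id_comp, lm_lm]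

lemma rr_comp {U V : C} (X : C) (z z' : U ⊗ V ⟶ U ⊗ V) : rr X (z ≫ z') = rr X z ≫ rr X z' := by
  simp [rr]

lemma ll_comp {U V : C} (X : C) (z z' : U ⊗ V ⟶ U ⊗ V) : ll X (z ≫ z') = ll X z ≫ ll X z' := by
  simp only [ll, comp_whiskerRight, Category.assoc]
  rw [← Category.assoc (lm U V X), lm_lm, Category.id_comp]

lemma rr_left {U V : C} (X : C) (a : U ⟶ U) : rr X (a ▷ V) = a ▷ (V ⊗ X) := by
  simp [rr]

lemma rr_right {U V : C} (X : C) (b : V ⟶ V) : rr X (U ◁ b) = U ◁ (b ▷ X) := by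
  simp [rr]

lemma ll_left {U V : C} (X : C) (a : U ⟶ U) : ll X (a ▷ V) = (a ▷ X) ▷ V := by
  rw [ll, ← Category.assoc, ← lm_nat, Category.assoc, lm_lm, Category.comp_id]

lemma ll_right {U V : C} (X : C) (b : V ⟶ V) : ll X (U ◁ b) = (U ⊗ X) ◁ b := by
  rw [ll, ← Category.assoc, ← lm_nat_right, Category.assoc, lm_lm, Category.comp_id]

/-- The two kinds of additional factors are compatible. -/
lemma ll_rr {U V : C} (X : C) (z : U ⊗ V ⟶ U ⊗ V) : ll X (rr X z) = rr X (ll X z) := by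
  have h1 := lm_tensor U X V X
  have h2 : (α_ U V X).hom ▷ X ≫ lm U (V ⊗ X) X = lm (U ⊗ V) X X ≫ (lm U V X ▷ X) ≫
      (α_ (U ⊗ X) V X).hom := by
    have e1 : lm U X (V ⊗ X) ≫ lm U (V ⊗ X) X = 𝟙 _ := lm_lm _ _ _
    have e2 : (lm U X V ▷ X) ≫ (lm U V X ▷ X) = 𝟙 _ := by
      rw [← comp_whiskerRight, lm_lm, id_whiskerRight]
    have e3 : lm (U ⊗ V) X X ≫ lm (U ⊗ V) X X = 𝟙 _ := lm_lm _ _ _
    have e4 : (lm U X (V ⊗ X) ≫ (α_ U V X).inv ▷ X) ≫ (α_ U V X).hom ▷ X ≫ lm U (V ⊗ X) X =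
        𝟙 _ := by
      rw [Category.assoc, ← comp_whiskerRight_assoc, Iso.inv_hom_id, id_whiskerRight,
        Category.id_comp, e1]
    rw [h1] at e4
    have e5 : (lm U V X ▷ X) ≫ (lm U X V ▷ X) = 𝟙 _ := by
      rw [← comp_whiskerRight, lm_lm, id_whiskerRight]
    have e6 := congrArg (fun z => lm (U ⊗ V) X X ≫ (lm U V X ▷ X) ≫ (α_ (U ⊗ X) V X).hom ≫ z) e4
    simp only [Category.assoc, Iso.hom_inv_id_assoc, Category.comp_id] at e6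
    rw [reassoc_of% e5, reassoc_of% e3] at e6
    exact e6
  simp only [ll, rr, comp_whiskerRight, Category.assoc]
  rw [reassoc_of% h1, h2]
  have h3 : lm (U ⊗ V) X X ≫ ((z ▷ X) ▷ X) ≫ lm (U ⊗ V) X X = (z ▷ X) ▷ X := by
    rw [lm_nat, ← Category.assoc, lm_lm, Category.id_comp]
  rw [reassoc_of% h3]

lemma delta_eq (U V X : C) :
    tensorδ U V X X = (α_ (U ⊗ X) V X).inv ≫ (lm U X V ▷ X) ≫ (α_ (U ⊗ V) X X).hom := by
  have e1 : (β_ V X).inv = (β_ X V).hom :=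
    (SymmetricCategory.braiding_swap_eq_inv_braiding V X).symm
  simp only [tensorδ, lm, e1]
  monoidal

lemma mu_eq' (U V X : C) :
    tensorμ U V X X = (α_ (U ⊗ V) X X).inv ≫ (lm U V X ▷ X) ≫ (α_ (U ⊗ X) V X).hom := by
  simp only [tensorμ, lm]
  monoidal

/-- The comparison with the exchange of tensor products. -/
lemma hat_eq {U V : C} (X : C) (z : U ⊗ V ⟶ U ⊗ V) :
    tensorδ U V X X ≫ (z ▷ (X ⊗ X)) ≫ tensorμ U V X X = rr X (ll X z) := by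
  rw [delta_eq, mu_eq', rr, ll]
  simp only [comp_whiskerRight, Category.assoc]
  rw [← associator_naturality_left_assoc, Iso.hom_inv_id_assoc]

variable [RightRigidCategory C]

lemma ptr_comp' {M M' N : C} (a : M' ⟶ M) (b : M ⟶ M') (x : M ⊗ N ⟶ M ⊗ N) :
    ptr (a ▷ N ≫ x ≫ b ▷ N) = a ≫ ptr x ≫ b := by
  simp only [ptr, comp_whiskerRight, Category.assoc]
  rw [associator_naturality_left_assoc, ← whisker_exchange_assoc, rightUnitor_naturality,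
    ← associator_inv_naturality_left_assoc, whisker_exchange_assoc,
    ← rightUnitor_inv_naturality_assoc]

/-- The contraction of the last factor of the second group. -/
def ctr {U V X : C} (x : U ⊗ (V ⊗ X) ⟶ U ⊗ (V ⊗ X)) : U ⊗ V ⟶ U ⊗ V :=
  ptr ((α_ U V X).hom ≫ x ≫ (α_ U V X).inv)

lemma ctr_comp {U V X : C} (b b' : U ⊗ V ⟶ U ⊗ V) (x : U ⊗ (V ⊗ X) ⟶ U ⊗ (V ⊗ X)) :
    ctr (rr X b ≫ x ≫ rr X b') = b ≫ ctr x ≫ b' := by
  rw [ctr, ctr, ← ptr_comp]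
  congr 1
  simp [rr]

lemma ctr_sw {U V X : C} (z : U ⊗ (V ⊗ X) ⟶ U ⊗ (V ⊗ X)) :
    ctr (rr X z ≫ U ◁ sw V X) = z := by
  have h1 : (α_ U (V ⊗ X) X).hom ≫ (U ◁ sw V X) ≫ (α_ U (V ⊗ X) X).inv =
      (α_ U V X).inv ▷ X ≫ sw (U ⊗ V) X ≫ (α_ U V X).hom ▷ X := by
    rw [sw, sw]
    monoidal
  have h2 : (α_ U (V ⊗ X) X).hom ≫ (rr X z ≫ U ◁ sw V X) ≫ (α_ U (V ⊗ X) X).inv =
      (z ≫ (α_ U V X).inv) ▷ X ≫ sw (U ⊗ V) X ≫ (α_ U V X).hom ▷ X := by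
    rw [comp_whiskerRight]
    simp only [Category.assoc]
    rw [← h1]
    simp [rr]
  rw [ctr, h2, ptr_comp', ptr_sw]
  simp

lemma ctr_sw' {U V X : C} (z : U ⊗ (V ⊗ X) ⟶ U ⊗ (V ⊗ X)) :
    ctr (U ◁ sw V X ≫ rr X z) = z := by
  have h1 : (α_ U (V ⊗ X) X).hom ≫ (U ◁ sw V X) ≫ (α_ U (V ⊗ X) X).inv =
      (α_ U V X).inv ▷ X ≫ sw (U ⊗ V) X ≫ (α_ U V X).hom ▷ X := by
    rw [sw, sw]
    monoidal
  have h2 : (α_ U (V ⊗ X) X).hom ≫ (U ◁ sw V X ≫ rr X z) ≫ (α_ U (V ⊗ X) X).inv =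
      (α_ U V X).inv ▷ X ≫ sw (U ⊗ V) X ≫ ((α_ U V X).hom ≫ z) ▷ X := by
    have e1 : (α_ U (V ⊗ X) X).hom ≫ (U ◁ sw V X ≫ rr X z) ≫ (α_ U (V ⊗ X) X).inv =
        ((α_ U (V ⊗ X) X).hom ≫ (U ◁ sw V X) ≫ (α_ U (V ⊗ X) X).inv) ≫ (z ▷ X) := by
      simp [rr]
    rw [e1, h1]
    simp
  rw [ctr, h2, ptr_comp', ptr_sw]
  simp

lemma ctr_sw_conj {U V X : C} (z : U ⊗ (V ⊗ X) ⟶ U ⊗ (V ⊗ X)) :
    ctr (U ◁ sw V X ≫ rr X z ≫ U ◁ sw V X) = rr X (ctr z) := by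
  have h1 : (α_ U (V ⊗ X) X).hom ≫ (U ◁ sw V X) ≫ (α_ U (V ⊗ X) X).inv =
      (α_ U V X).inv ▷ X ≫ sw (U ⊗ V) X ≫ (α_ U V X).hom ▷ X := by
    rw [sw, sw]
    monoidal
  have h2 : (α_ U (V ⊗ X) X).hom ≫ (U ◁ sw V X ≫ rr X z ≫ U ◁ sw V X) ≫ (α_ U (V ⊗ X) X).inv =
      (α_ U V X).inv ▷ X ≫ (sw (U ⊗ V) X ≫ (((α_ U V X).hom ≫ z ≫ (α_ U V X).inv) ▷ X) ≫
        sw (U ⊗ V) X) ≫ (α_ U V X).hom ▷ X := by
    have e1 : (α_ U (V ⊗ X) X).hom ≫ (U ◁ sw V X ≫ rr X z ≫ U ◁ sw V X) ≫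
        (α_ U (V ⊗ X) X).inv =
        ((α_ U (V ⊗ X) X).hom ≫ (U ◁ sw V X) ≫ (α_ U (V ⊗ X) X).inv) ≫ (z ▷ X) ≫
        ((α_ U (V ⊗ X) X).hom ≫ (U ◁ sw V X) ≫ (α_ U (V ⊗ X) X).inv) := by
      simp [rr]
    rw [e1, h1]
    simp
  rw [ctr, h2, ptr_comp', ptr_sw_conj, rr, ctr]

/-- Contractions are compatible with additional factors of the first group. -/
lemma ctr_ll {U V X : C} (z : U ⊗ (V ⊗ X) ⟶ U ⊗ (V ⊗ X)) : ctr (ll X z) = ll X (ctr z) := by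
  have h1 := lm_tensor U X V X
  have h2 : (α_ U V X).hom ▷ X ≫ lm U (V ⊗ X) X = lm (U ⊗ V) X X ≫ (lm U V X ▷ X) ≫
      (α_ (U ⊗ X) V X).hom := by
    have e1 : lm U X (V ⊗ X) ≫ lm U (V ⊗ X) X = 𝟙 _ := lm_lm _ _ _
    have e3 : lm (U ⊗ V) X X ≫ lm (U ⊗ V) X X = 𝟙 _ := lm_lm _ _ _
    have e4 : (lm U X (V ⊗ X) ≫ (α_ U V X).inv ▷ X) ≫ (α_ U V X).hom ▷ X ≫ lm U (V ⊗ X) X =
        𝟙 _ := by
      rw [Category.assoc, ← comp_whiskerRight_assoc, Iso.inv_hom_id, id_whiskerRight,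
        Category.id_comp, e1]
    rw [h1] at e4
    have e5 : (lm U V X ▷ X) ≫ (lm U X V ▷ X) = 𝟙 _ := by
      rw [← comp_whiskerRight, lm_lm, id_whiskerRight]
    have e6 := congrArg (fun z => lm (U ⊗ V) X X ≫ (lm U V X ▷ X) ≫ (α_ (U ⊗ X) V X).hom ≫ z) e4
    simp only [Category.assoc, Iso.hom_inv_id_assoc, Category.comp_id] at e6
    rw [reassoc_of% e5, reassoc_of% e3] at e6
    exact e6
  have h3 : (α_ (U ⊗ X) V X).hom ≫ ll X z ≫ (α_ (U ⊗ X) V X).inv =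
      (lm U X V ▷ X) ≫ (sw (U ⊗ V) X ≫ (((α_ U V X).hom ≫ z ≫ (α_ U V X).inv) ▷ X) ≫
        sw (U ⊗ V) X) ≫ (lm U V X ▷ X) := by
    have e1 : (α_ (U ⊗ X) V X).hom ≫ lm U X (V ⊗ X) = (lm U X V ▷ X) ≫ lm (U ⊗ V) X X ≫
        (α_ U V X).hom ▷ X := by
      have e2 := congrArg (fun z => (α_ (U ⊗ X) V X).hom ≫ z ≫ (α_ U V X).hom ▷ X) h1
      simp only [Category.assoc, Iso.hom_inv_id_assoc] at e2
      rw [← comp_whiskerRight, Iso.inv_hom_id, id_whiskerRight, Category.comp_id] at e2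
      exact e2
    have e3 : lm U (V ⊗ X) X ≫ (α_ (U ⊗ X) V X).inv = (α_ U V X).inv ▷ X ≫ lm (U ⊗ V) X X ≫
        (lm U V X ▷ X) := by
      have e2 := congrArg (fun z => (α_ U V X).inv ▷ X ≫ z ≫ (α_ (U ⊗ X) V X).inv) h2
      simp only [Category.assoc, Iso.hom_inv_id, Category.comp_id] at e2
      rw [← comp_whiskerRight_assoc, Iso.inv_hom_id, id_whiskerRight, Category.id_comp] at e2
      exact e2
    rw [ll]
    simp only [Category.assoc]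
    rw [e3, reassoc_of% e1]
    simp only [comp_whiskerRight, Category.assoc, lm_self]
  rw [ctr, h3, ptr_comp', ptr_sw_conj, ll, ctr]

end

end Pool.Agent.Y97.PK
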