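import Pool.Agent.Y97.PK.Main

/-!
# An object with a Kimura-finite symmetric or exterior square is Kimura-finite
-/

set_option autoImplicit false
set_option linter.unusedSectionVars false
set_option linter.unusedSimpArgs false
set_option backward.isDefEq.respectTransparency false
set_option backward.defeqAttrib.useBackward true

open CategoryTheory Limits MonoidalCategory
open Pool.Agent.Y112.SR Pool.Agent.Y112.KD
open Pool.Agent.Y116.MT (tr)
open Pool.Agent.TH829.Kim (F)

namespace Pool.Agent.Y97.PK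

universe v u w

open Functor.LaxMonoidal Functor.OplaxMonoidal

section

variable {C : Type u} [Category.{v} C] [Preadditive C] [Linear ℚ C] [MonoidalCategory C]
  [MonoidalPreadditive C] [MonoidalLinear ℚ C] [SymmetricCategory C]

lemma retract_of {X Y P : C} (a : Y ⟶ X) (b : X ⟶ Y) (i : P ⟶ X) (r : X ⟶ P) (c : ℚ)
    (hc : c ≠ 0) (h : a ≫ (r ≫ i) ≫ b = c • 𝟙 Y) :
    ∃ (i' : Y ⟶ P) (r' : P ⟶ Y), i' ≫ r' = 𝟙 _ := by
  refine ⟨a ≫ r, c⁻¹ • (i ≫ b), ?_⟩
  rw [Linear.comp_smul]
  simp only [Category.assoc] at h ⊢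
  rw [h, smul_smul, inv_mul_cancel₀ hc, one_smul]

/-- The tensor product of two complementary summands is a retract of the square. -/
lemma retract_pair {M S E O : C} (η : ℚ) (i : S ⟶ M ⊗ M) (r : M ⊗ M ⟶ S)
    (hri : r ≫ i = sq η M) (iE : E ⟶ M) (rE : M ⟶ E) (iO : O ⟶ M) (rO : M ⟶ O)
    (hE : iE ≫ rE = 𝟙 E) (hO : iO ≫ rO = 𝟙 O) (hEO : iE ≫ rO = 0) (hOE : iO ≫ rE = 0) :
    ∃ (i' : E ⊗ O ⟶ S) (r' : S ⟶ E ⊗ O), i' ≫ r' = 𝟙 _ := by
  apply retract_of (iE ⊗ₘ iO) (rE ⊗ₘ rO) i r (2⁻¹) (by norm_num)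
  have h1 : (iE ⊗ₘ iO) ≫ (β_ M M).hom ≫ (rE ⊗ₘ rO) = 0 := by
    rw [BraidedCategory.braiding_naturality_assoc, tensorHom_comp_tensorHom, hOE, hEO]
    simp
  rw [hri, sq, Linear.smul_comp, Linear.comp_smul, Preadditive.add_comp, Preadditive.comp_add,
    Linear.smul_comp, Linear.comp_smul, h1, smul_zero, add_zero, Category.id_comp,
    tensorHom_comp_tensorHom, hE, hO, id_tensorHom_id]

lemma kills_of_zero {X : C} (h : 𝟙 X = 0) (η : ℚ) : asym η X 1 = 0 := by
  rw [asym_one]
  have h1 : 𝟙 (tp X 1) = (𝟙_ C) ◁ 𝟙 X := (MonoidalCategory.whiskerLeft_id _ _).symm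
  rw [h1, h]
  simp

variable [RightRigidCategory C] {K : Type w} [Field K] (R : SuperRealisation C K)

lemma zero_of_nil {M E : C} (hnil : ∀ f : End M, R.H.map f = 0 → IsNilpotent f) (i : E ⟶ M)
    (r : M ⟶ E) (hir : i ≫ r = 𝟙 E) (h : IsZero (R.H.obj E)) : 𝟙 E = 0 := by
  let e : End M := r ≫ i
  have h1 : R.H.map e = 0 := by
    change R.H.map (r ≫ i) = 0
    rw [Functor.map_comp, h.eq_of_tgt (R.H.map r) 0, zero_comp]
  obtain ⟨k, hk⟩ := hnil e h1
  have h2 : IsIdempotentElem e := by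
    change e * e = e
    rw [End.mul_def]
    change (r ≫ i) ≫ (r ≫ i) = r ≫ i
    rw [Category.assoc, reassoc_of% hir]
  have h3 : e = 0 := by
    rcases k with - | k
    · rw [pow_zero] at hk
      rw [← mul_one e, hk, mul_zero]
    · rwa [h2.pow_succ_eq] at hk
  have h4 : i ≫ (r ≫ i) ≫ r = 0 := by
    have h5 : r ≫ i = 0 := h3
    rw [h5]
    simp
  simpa [hir, reassoc_of% hir] using h4

include R in
/-- An object with a Kimura-finite symmetric or exterior square is Kimura-finite. -/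
theorem kimura_sq [IsIdempotentComplete C] (hU : UnitQ C) {M S : C} {η : ℚ}
    (hη : η = 1 ∨ η = -1) (i : S ⟶ M ⊗ M) (r : M ⊗ M ⟶ S) (hir : i ≫ r = 𝟙 S)
    (hri : r ≫ i = sq η M) (hS : KimuraFinite S) (hC : R.CPlus M) : KimuraFinite M := by
  have hc := R_charZero R
  have hη2 : η * η = 1 := by rcases hη with rfl | rfl <;> norm_num
  have hnil := nil_sq R hU hη2 i r hir hri hS
  obtain ⟨E, O, iE, rE, iO, rO, h1, h2, h3, h4, h5⟩ := split_sign R hC hnil
  have hEO : iE ≫ rO = 0 := by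
    have e1 : iE ≫ (rE ≫ iE + rO ≫ iO) ≫ rO = iE ≫ rO := by rw [h3, Category.id_comp]
    rw [Preadditive.add_comp, Preadditive.comp_add, Category.assoc, reassoc_of% h1,
      Category.assoc, h2, Category.comp_id] at e1
    exact left_eq_add.mp e1.symm
  have hOE : iO ≫ rE = 0 := by
    have e1 : iO ≫ (rE ≫ iE + rO ≫ iO) ≫ rE = iO ≫ rE := by rw [h3, Category.id_comp]
    rw [Preadditive.add_comp, Preadditive.comp_add, Category.assoc, Category.assoc,
      reassoc_of% h2, h1, Category.comp_id] at e1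
    exact left_eq_add.mp e1.symm
  refine ⟨E, O, ⟨iE, rE, iO, rO, h1, h2, h3⟩, ?_, ?_⟩
  · rw [isEven_iff]
    by_cases hE0 : IsZero (R.H.obj E)
    · exact ⟨1, le_refl 1, kills_of_zero (zero_of_nil R hnil iE rE h1 hE0) _⟩
    by_cases hO0 : IsZero (R.H.obj O)
    · have hO1 := zero_of_nil R hnil iO rO h2 hO0
      have e1 : rE ≫ iE = 𝟙 M := by
        rw [← h3, ← Category.comp_id rO, hO1]
        simp
      have hM : R.par M = ((1 : ℚ) : K) • 𝟙 _ := by
        have e2 := R.par_natural iE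
        rw [h4, one_smul, Category.id_comp] at e2
        have e3 : R.par M = R.H.map (rE ≫ iE) ≫ R.par M := by
          rw [e1, CategoryTheory.Functor.map_id, Category.id_comp]
        rw [e3, Functor.map_comp, Category.assoc, e2, ← Functor.map_comp, e1,
          CategoryTheory.Functor.map_id, Rat.cast_one, one_smul]
      have hM0 : ¬ IsZero (R.H.obj M) := fun hz => hE0 (by
        rw [IsZero.iff_id_eq_zero, ← CategoryTheory.Functor.map_id, ← h1, Functor.map_comp,
          hz.eq_of_tgt (R.H.map iE) 0, zero_comp])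
      obtain ⟨n, hn, hk⟩ := pure_sq R hU hη i r hir hri hS 1 (Or.inl rfl) hM hM0
      exact ⟨n, hn, kills_retract iE rE h1 hk⟩
    · obtain ⟨i', r', hr⟩ := retract_pair η i r hri iE rE iO rO h1 h2 hEO hOE
      have hpar : R.par (E ⊗ O) = ((-1 : ℚ) : K) • 𝟙 _ := by
        rw [par_tensor_smul R h4 h5]
        norm_num
      obtain ⟨n, hn, hk⟩ := pure_kill R hU hS i' r' hr (-1) (Or.inr rfl) hpar
      have hk' : asym ((-1) * (-1)) (E ⊗ O) n = 0 := by
        norm_num
        simpa using hk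
      exact ⟨n, hn, kill_descent hU (by norm_num) (by norm_num) E O n hk'
        (F_one_ne R hU (-1) (by norm_num) (by simpa using h5) hO0 n)⟩
  · rw [isOdd_iff]
    by_cases hO0 : IsZero (R.H.obj O)
    · exact ⟨1, le_refl 1, kills_of_zero (zero_of_nil R hnil iO rO h2 hO0) _⟩
    by_cases hE0 : IsZero (R.H.obj E)
    · have hE1 := zero_of_nil R hnil iE rE h1 hE0
      have e1 : rO ≫ iO = 𝟙 M := by
        rw [← h3, ← Category.comp_id rE, hE1]
        simp
      have hM : R.par M = ((-1 : ℚ) : K) • 𝟙 _ := by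
        have e2 := R.par_natural iO
        rw [h5] at e2
        have e3 : R.par M = R.H.map (rO ≫ iO) ≫ R.par M := by
          rw [e1, CategoryTheory.Functor.map_id, Category.id_comp]
        rw [e3, Functor.map_comp, Category.assoc, e2, Linear.smul_comp, Linear.comp_smul,
          Category.id_comp, ← Functor.map_comp, e1, CategoryTheory.Functor.map_id]
        norm_num
      have hM0 : ¬ IsZero (R.H.obj M) := fun hz => hO0 (by
        rw [IsZero.iff_id_eq_zero, ← CategoryTheory.Functor.map_id, ← h2, Functor.map_comp,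
          hz.eq_of_tgt (R.H.map iO) 0, zero_comp])
      obtain ⟨n, hn, hk⟩ := pure_sq R hU hη i r hir hri hS (-1) (Or.inr rfl) hM hM0
      rw [neg_neg] at hk
      exact ⟨n, hn, kills_retract iO rO h2 hk⟩
    · obtain ⟨i', r', hr⟩ := retract_pair η i r hri iO rO iE rE h2 h1 hOE hEO
      have hpar : R.par (O ⊗ E) = ((-1 : ℚ) : K) • 𝟙 _ := by
        rw [par_tensor_smul R h5 h4]
        norm_num
      obtain ⟨n, hn, hk⟩ := pure_kill R hU hS i' r' hr (-1) (Or.inr rfl) hpar
      have hk' : asym (1 * 1) (O ⊗ E) n = 0 := by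
        norm_num
        simpa using hk
      exact ⟨n, hn, kill_descent hU (by norm_num) (by norm_num) O E n hk'
        (F_one_ne R hU 1 (by norm_num) (by simpa using h4) hE0 n)⟩

end

end Pool.Agent.Y97.PK
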