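import Pool.Agent.Y97.PK.Br

/-!
# An object with a Kimura-finite symmetric or exterior square is Kimura-finite
-/

set_option autoImplicit false
set_option linter.unusedSectionVars false
set_option linter.unusedSimpArgs false
set_option backward.isDefEq.respectTransparency false
set_option backward.defeqAttrib.useBackward true

open CategoryTheory Limits MonoidalCategory
open Pool.Agent.Y112.SR Pool.Agent.Y112.KD
open Pool.Agent.Y116.MT (tr)
open Pool.Agent.TH829.Kim (F)

namespace Pool.Agent.Y97.PK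

universe v u w

open Functor.LaxMonoidal Functor.OplaxMonoidal

section

variable {C : Type u} [Category.{v} C] [Preadditive C] [Linear ℚ C] [MonoidalCategory C]
  [MonoidalPreadditive C] [MonoidalLinear ℚ C] [SymmetricCategory C]

lemma swap_zip {θ a : ℚ} (hθ : θ * θ = 1) (ha : a * a = 1) (h : θ * a = -1) (M : C) (n : ℕ)
    (s : tp (M ⊗ M) n ⟶ tp (M ⊗ M) n) (hs : IsSwap (M ⊗ M) n s) :
    s ≫ zip M M n ≫ (asym θ M n ⊗ₘ asym a M n) =
      (-1 : ℚ) • (zip M M n ≫ (asym θ M n ⊗ₘ asym a M n)) := by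
  obtain ⟨s', s'', h1, h2, h3⟩ := zip_swap M M hs
  rw [← Category.assoc, h3, Category.assoc, tensorHom_comp_tensorHom, (swap_asym hθ M h1).1,
    (swap_asym ha M h2).1]
  simp only [MonoidalCategory.tensorHom_def, MonoidalLinear.smul_whiskerRight,
    MonoidalLinear.whiskerLeft_smul, Linear.smul_comp, Linear.comp_smul, smul_smul,
    mul_comm a θ, h]

lemma kill_up {η : ℚ} (hη : η * η = 1) {X : C} {n : ℕ} (h : asym η X n = 0) (k : ℕ) :
    asym η X (n + k) = 0 := by
  induction k with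
  | zero => exact h
  | succ k ih =>
    have h1 := (absorb hη X (n + k)).1
    rw [ih] at h1
    have h2 : asym η X (n + (k + 1)) = asym η X (n + k + 1) := rfl
    rw [h2, ← h1]
    simp

/-- If the square is killed then the operator on pairs vanishes. -/
lemma br_zero {θ a η : ℚ} (hθ : θ * θ = 1) (ha : a * a = 1) (h : θ * a = -1) {M S : C}
    (i : S ⟶ M ⊗ M) (r : M ⊗ M ⟶ S) (hri : r ≫ i = sq η M) (n : ℕ)
    (hS : asym (-1) S n = 0) : br θ a M n (tpm (sq η M) n) = 0 := by
  have h1 : tpm (sq η M) n ≫ asym (-1) (M ⊗ M) n = 0 := by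
    rw [← hri, ← tpm_comp, Category.assoc, asym_nat, hS]
    simp
  have h2 : asym (-1) (M ⊗ M) n ≫ zip M M n ≫ (asym θ M n ⊗ₘ asym a M n) =
      zip M M n ≫ (asym θ M n ⊗ₘ asym a M n) :=
    asym_comp (by norm_num) _ (swap_zip hθ ha h M n)
  rw [br, ← h2, reassoc_of% h1]
  simp

variable [RightRigidCategory C] {K : Type w} [Field K] (R : SuperRealisation C K)

include R in
/-- The pure case. -/
theorem pure_sq (hU : UnitQ C) {M S : C} {η : ℚ} (hη : η = 1 ∨ η = -1) (i : S ⟶ M ⊗ M)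
    (r : M ⊗ M ⟶ S) (hir : i ≫ r = 𝟙 S) (hri : r ≫ i = sq η M) (hS : KimuraFinite S) (a : ℚ)
    (ha : a = 1 ∨ a = -1) (hM : R.par M = (a : K) • 𝟙 _) (h0 : ¬ IsZero (R.H.obj M)) :
    ∃ n : ℕ, 1 ≤ n ∧ asym (-a) M n = 0 := by
  have hc := R_charZero R
  have ha2 : a * a = 1 := by rcases ha with rfl | rfl <;> norm_num
  have hθ : (-a) * (-a) = 1 := by rcases ha with rfl | rfl <;> norm_num
  have hθa : (-a) * a = -1 := by rcases ha with rfl | rfl <;> norm_num
  -- the square is even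
  have hpS : R.par S = ((1 : ℚ) : K) • 𝟙 _ := by
    have h1 : R.par (M ⊗ M) = 𝟙 _ := by
      rw [par_tensor_smul R hM hM, ← Rat.cast_mul, ha2, Rat.cast_one, one_smul]
    have h2 := R.par_natural i
    rw [h1, Category.comp_id] at h2
    have h3 : R.par S ≫ R.H.map i ≫ R.H.map r = R.H.map i ≫ R.H.map r := by
      rw [← Category.assoc, ← h2]
    rw [← Functor.map_comp, hir, CategoryTheory.Functor.map_id, Category.comp_id] at h3
    rw [h3, Rat.cast_one, one_smul]
  obtain ⟨N, hN, hkill⟩ := pure_kill R hU hS (𝟙 S) (𝟙 S) (by simp) 1 (Or.inl rfl) hpS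
  set h := Module.finrank K (R.H.obj M) with hh
  have hh0 : h ≠ 0 := finrank_ne_zero R h0
  have ht : trq hU M (1 : End M) = a * h := trq_one R hU a hM
  -- a large number of factors
  obtain ⟨n, hn1, hn2⟩ : ∃ n : ℕ, N + h = n ∧ h < n + 1 := ⟨N + h, rfl, by omega⟩
  have hk : asym (-1) S (n + 1) = 0 := by
    have := kill_up (by norm_num) hkill (h + 1)
    rw [← hn1]
    exact this
  have h1 := br_zero hθ ha2 hθa i r hri (n + 1) hk
  rw [br_sq hθ ha2 hθa] at h1
  have h2 : br (-a) a M (n + 1) (𝟙 _) + (η * ((n : ℚ) + 1)) • br (-a) a M (n + 1) (fs M n) = 0 := by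
    have h3 := congrArg (fun z => (2 : ℚ) ^ (n + 1) • z) h1
    have h4 : (2 : ℚ) ^ (n + 1) * (2⁻¹ : ℚ) ^ (n + 1) = 1 := by
      rw [← mul_pow]
      norm_num
    simpa only [smul_smul, h4, one_smul, smul_zero] using h3
  rw [br_one hθ ha2, br_fs hθ ha2] at h2
  set A := asym (-a) M (n + 1) with hA
  obtain ⟨y, hy1, hy2⟩ := cf_YY hU ha2 (tp M (n + 1)) M (gb M n) (ctr_gb M n) (n + 1)
  have hAA : A ≫ A = A := asym_idem hθ M (n + 1)
  have h3 := congrArg (fun z => cf (tp M (n + 1)) M (n + 1) z) h2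
  simp only [map_add, map_smul, map_zero] at h3
  have h4 : cf (tp M (n + 1)) M (n + 1) (A ⊗ₘ asym a M (n + 1)) =
      bb (trq hU M (1 : End M)) a (n + 1) • (A ▷ tp M 0) := by
    have e1 : (A ⊗ₘ asym a M (n + 1)) = (A ▷ tp M (n + 1)) ≫
        (tp M (n + 1) ◁ asym a M (n + 1)) ≫ (𝟙 (tp M (n + 1)) ▷ tp M (n + 1)) := by
      rw [id_whiskerRight, Category.comp_id, MonoidalCategory.tensorHom_def]
    rw [e1, cf_left, cf_asym hU ha2, Linear.smul_comp, Linear.comp_smul, id_whiskerRight,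
      Category.comp_id, Category.comp_id]
  have h5 : cf (tp M (n + 1)) M (n + 1) ((A ▷ tp M (n + 1)) ≫
      YY a (tp M (n + 1)) M (gb M n) (n + 1) ≫ (A ▷ tp M (n + 1))) = y • (A ▷ tp M 0) := by
    rw [cf_left, hy1, Linear.smul_comp, Linear.comp_smul, Category.id_comp, ← comp_whiskerRight,
      hAA]
  rw [h4, h5, smul_smul, ← add_smul] at h3
  have hb0 : bb (trq hU M (1 : End M)) a (n + 1) ≠ 0 := by
    rw [bb, Finset.prod_ne_zero_iff]
    intro j _
    rw [ht]
    have ha0 : a ≠ 0 := fun h => by simp [h] at ha2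
    have e1 : a * (h : ℚ) + a * j = a * (h + j) := by ring
    rw [e1]
    positivity
  have hcoef : bb (trq hU M (1 : End M)) a (n + 1) + η * ((n : ℚ) + 1) * y ≠ 0 := by
    intro h6
    have h7 := hy2 (by omega)
    have h8 : bb (trq hU M (1 : End M)) a (n + 1) *
        (trq hU M (1 : End M) + η * ((n : ℚ) + 1)) = 0 := by
      have e1 : bb (trq hU M (1 : End M)) a (n + 1) *
        (trq hU M (1 : End M) + η * ((n : ℚ) + 1)) = trq hU M (1 : End M) *
        (bb (trq hU M (1 : End M)) a (n + 1) + η * ((n : ℚ) + 1) * y) := by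
        linear_combination (-(η * ((n : ℚ) + 1))) * h7
      rw [e1, h6, mul_zero]
    rcases mul_eq_zero.mp h8 with h9 | h9
    · exact hb0 h9
    · rw [ht] at h9
      have hlt : (h : ℚ) < (n : ℚ) + 1 := by exact_mod_cast hn2
      have hpos : (0 : ℚ) < h := by exact_mod_cast Nat.pos_of_ne_zero hh0
      rcases ha with rfl | rfl <;> rcases hη with rfl | rfl <;> linarith
  have h6 := congrArg (fun z => (bb (trq hU M (1 : End M)) a (n + 1) +
    η * ((n : ℚ) + 1) * y)⁻¹ • z) h3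
  simp only [smul_smul, inv_mul_cancel₀ hcoef, one_smul, smul_zero] at h6
  refine ⟨n + 1, by omega, ?_⟩
  have h7 : A = (ρ_ _).inv ≫ (A ▷ 𝟙_ C) ≫ (ρ_ _).hom := by simp
  have h8 : A ▷ 𝟙_ C = 0 := h6
  rw [← hA, h7, h8]
  simp

end

end Pool.Agent.Y97.PK
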