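import Pool.Agent.Y112.KD.Main

/-!
# Partial traces and additional factors
-/

set_option autoImplicit false
set_option linter.unusedSectionVars false
set_option linter.unusedSimpArgs false

open CategoryTheory Limits MonoidalCategory
open Pool.Agent.Y112.SR Pool.Agent.Y112.KD
open Pool.Agent.Y116.MT (tr)

namespace Pool.Agent.Y97.PK

universe v u w

section

variable {C : Type u} [Category.{v} C] [MonoidalCategory C] [SymmetricCategory C]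

/-- The exchange of the last two factors, which may be different. -/
def lm (U X V : C) : (U ⊗ X) ⊗ V ⟶ (U ⊗ V) ⊗ X :=
  (α_ U X V).hom ≫ U ◁ (β_ X V).hom ≫ (α_ U V X).inv

lemma lm_self (U X : C) : lm U X X = sw U X := rfl

lemma lm_lm (U X V : C) : lm U X V ≫ lm U V X = 𝟙 _ := by
  simp [lm, ← MonoidalCategory.whiskerLeft_comp_assoc]

lemma lm_nat {U U' : C} (X V : C) (z : U ⟶ U') :
    (z ▷ X) ▷ V ≫ lm U' X V = lm U X V ≫ (z ▷ V) ▷ X := by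
  simp only [lm, Category.assoc]
  rw [associator_naturality_left_assoc, ← whisker_exchange_assoc, associator_inv_naturality_left]

lemma lm_nat_mid {U X X' : C} (V : C) (z : X ⟶ X') :
    (U ◁ z) ▷ V ≫ lm U X' V = lm U X V ≫ (U ⊗ V) ◁ z := by
  simp only [lm, Category.assoc]
  rw [associator_naturality_middle_assoc, ← MonoidalCategory.whiskerLeft_comp_assoc,
    BraidedCategory.braiding_naturality_left, MonoidalCategory.whiskerLeft_comp_assoc,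
    ← associator_inv_naturality_right]

lemma lm_nat_right {U V V' : C} (X : C) (z : V ⟶ V') :
    (U ⊗ X) ◁ z ≫ lm U X V' = lm U X V ≫ (U ◁ z) ▷ X := by
  simp only [lm, Category.assoc]
  rw [associator_naturality_right_assoc, ← MonoidalCategory.whiskerLeft_comp_assoc,
    BraidedCategory.braiding_naturality_right, MonoidalCategory.whiskerLeft_comp_assoc,
    associator_inv_naturality_middle]

/-- The exchange of a factor with a tensor product. -/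
lemma lm_tensor (U X V W : C) : lm U X (V ⊗ W) ≫ (α_ U V W).inv ▷ X =
    (α_ (U ⊗ X) V W).inv ≫ (lm U X V ▷ W) ≫ lm (U ⊗ V) X W := by
  simp only [lm, BraidedCategory.braiding_tensor_right_hom]
  monoidal

variable [RightRigidCategory C]

lemma core1 (X X' : C) (η : 𝟙_ C ⟶ X ⊗ X') :
    (ρ_ X).inv ≫ X ◁ η ≫ (α_ X X X').inv ≫ (β_ X X).hom ▷ X' =
      (λ_ X).inv ≫ η ▷ X ≫ (α_ X X' X).hom ≫ X ◁ (β_ X' X).hom ≫ (α_ X X X').inv := by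
  have h1 : X ◁ η ≫ (β_ X (X ⊗ X')).hom = (β_ X (𝟙_ C)).hom ≫ η ▷ X :=
    BraidedCategory.braiding_naturality_right _ _
  rw [BraidedCategory.braiding_tensor_right_hom] at h1
  have h2 : (ρ_ X).inv ≫ (β_ X (𝟙_ C)).hom = (λ_ X).inv := by
    simp
  have h3 : (ρ_ X).inv ≫ X ◁ η ≫ (α_ X X X').inv ≫ (β_ X X).hom ▷ X' ≫ (α_ X X X').hom ≫
      X ◁ (β_ X X').hom ≫ (α_ X X' X).inv = (λ_ X).inv ≫ η ▷ X := by
    rw [h1, reassoc_of% h2]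
  have h4 := congrArg (fun z => z ≫ (α_ X X' X).hom ≫ X ◁ (β_ X' X).hom ≫ (α_ X X X').inv) h3
  simp only [Category.assoc, Iso.inv_hom_id_assoc] at h4
  rw [← MonoidalCategory.whiskerLeft_comp_assoc, SymmetricCategory.symmetry,
    MonoidalCategory.whiskerLeft_id, Category.id_comp, Iso.hom_inv_id, Category.comp_id] at h4
  exact h4

lemma core2 (X X' : C) (κ : X ⊗ X' ⟶ 𝟙_ C) :
    (β_ X X).hom ▷ X' ≫ (α_ X X X').hom ≫ X ◁ κ ≫ (ρ_ X).hom =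
      (α_ X X X').hom ≫ X ◁ (β_ X X').hom ≫ (α_ X X' X).inv ≫ κ ▷ X ≫ (λ_ X).hom := by
  have h1 : X ◁ κ ≫ (β_ X (𝟙_ C)).hom = (β_ X (X ⊗ X')).hom ≫ κ ▷ X :=
    BraidedCategory.braiding_naturality_right _ _
  have h2 : (β_ X (𝟙_ C)).hom ≫ (λ_ X).hom = (ρ_ X).hom := by simp
  rw [← h2, reassoc_of% h1, BraidedCategory.braiding_tensor_right_hom]
  simp only [Category.assoc, Iso.hom_inv_id_assoc]
  rw [← comp_whiskerRight_assoc, SymmetricCategory.symmetry, id_whiskerRight, Category.id_comp]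

/-- The partial trace over one factor is compatible with an additional factor. -/
lemma ptr_sw_conj {Q X : C} (y : Q ⊗ X ⟶ Q ⊗ X) :
    ptr (sw Q X ≫ (y ▷ X) ≫ sw Q X) = (ptr y) ▷ X := by
  have c1 : (ρ_ (Q ⊗ X)).inv ≫ (Q ⊗ X) ◁ η_ X Xᘁ ≫ (α_ (Q ⊗ X) X Xᘁ).inv ≫ (sw Q X ▷ Xᘁ) =
      (((ρ_ Q).inv ≫ Q ◁ η_ X Xᘁ ≫ (α_ Q X Xᘁ).inv) ▷ X) ≫ lm (Q ⊗ X) Xᘁ X := by
    have h1 := congrArg (fun z => Q ◁ z) (core1 X Xᘁ (η_ X Xᘁ))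
    simp only [MonoidalCategory.whiskerLeft_comp] at h1
    have e1 : (ρ_ (Q ⊗ X)).inv ≫ (Q ⊗ X) ◁ η_ X Xᘁ ≫ (α_ (Q ⊗ X) X Xᘁ).inv ≫ (sw Q X ▷ Xᘁ) =
        (Q ◁ (ρ_ X).inv ≫ Q ◁ X ◁ η_ X Xᘁ ≫ Q ◁ (α_ X X Xᘁ).inv ≫ Q ◁ (β_ X X).hom ▷ Xᘁ) ≫
          (α_ Q (X ⊗ X) Xᘁ).inv ≫ (α_ Q X X).inv ▷ Xᘁ := by
      rw [sw]
      monoidal
    rw [e1, h1, lm]
    monoidal
  have c2 : (sw Q X ▷ Xᘁ) ≫ (α_ (Q ⊗ X) X Xᘁ).hom ≫ (Q ⊗ X) ◁ ((β_ X Xᘁ).hom ≫ ε_ X Xᘁ) ≫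
      (ρ_ (Q ⊗ X)).hom = lm (Q ⊗ X) X Xᘁ ≫
        (((α_ Q X Xᘁ).hom ≫ Q ◁ ((β_ X Xᘁ).hom ≫ ε_ X Xᘁ) ≫ (ρ_ Q).hom) ▷ X) := by
    have h1 := congrArg (fun z => Q ◁ z) (core2 X Xᘁ ((β_ X Xᘁ).hom ≫ ε_ X Xᘁ))
    simp only [MonoidalCategory.whiskerLeft_comp] at h1
    have e1 : (sw Q X ▷ Xᘁ) ≫ (α_ (Q ⊗ X) X Xᘁ).hom ≫ (Q ⊗ X) ◁ ((β_ X Xᘁ).hom ≫ ε_ X Xᘁ) ≫
        (ρ_ (Q ⊗ X)).hom = ((α_ Q X X).hom ▷ Xᘁ ≫ (α_ Q (X ⊗ X) Xᘁ).hom) ≫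
          (Q ◁ (β_ X X).hom ▷ Xᘁ ≫ Q ◁ (α_ X X Xᘁ).hom ≫ Q ◁ X ◁ (β_ X Xᘁ).hom ≫
            Q ◁ X ◁ ε_ X Xᘁ ≫ Q ◁ (ρ_ X).hom) := by
      rw [sw]
      simp only [MonoidalCategory.whiskerLeft_comp]
      monoidal
    rw [e1]
    simp only [MonoidalCategory.whiskerLeft_comp, comp_whiskerRight, Category.assoc] at h1 ⊢
    rw [h1, lm]
    monoidal
  have h2 : lm (Q ⊗ X) Xᘁ X ≫ ((y ▷ X) ▷ Xᘁ) ≫ lm (Q ⊗ X) X Xᘁ = (y ▷ Xᘁ) ▷ X := by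
    rw [lm_nat, ← Category.assoc, lm_lm, Category.id_comp]
  rw [ptr]
  simp only [comp_whiskerRight, Category.assoc]
  rw [c2]
  have h3 := congrArg (fun z => z ≫ ((y ▷ X) ▷ Xᘁ) ≫ lm (Q ⊗ X) X Xᘁ ≫
        (((α_ Q X Xᘁ).hom ≫ Q ◁ ((β_ X Xᘁ).hom ≫ ε_ X Xᘁ) ≫ (ρ_ Q).hom) ▷ X)) c1
  simp only [Category.assoc] at h3
  rw [h3, reassoc_of% h2, ← comp_whiskerRight_assoc, ← comp_whiskerRight, ptr]
  simp only [Category.assoc]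

end

end Pool.Agent.Y97.PK
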