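import Pool.Agent.Y97.PK.Ctr

/-!
# The recursion of the contractions
-/

set_option autoImplicit false
set_option linter.unusedSectionVars false
set_option linter.unusedSimpArgs false

open CategoryTheory Limits MonoidalCategory
open Pool.Agent.Y112.SR Pool.Agent.Y112.KD
open Pool.Agent.Y116.MT (tr)

namespace Pool.Agent.Y97.PK

universe v u w

section

variable {C : Type u} [Category.{v} C] [Preadditive C] [Linear ℚ C] [MonoidalCategory C]
  [MonoidalPreadditive C] [MonoidalLinear ℚ C] [SymmetricCategory C]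

lemma rr_add {U V : C} (X : C) (z z' : U ⊗ V ⟶ U ⊗ V) : rr X (z + z') = rr X z + rr X z' := by
  simp only [rr, MonoidalPreadditive.add_whiskerRight, Preadditive.comp_add, Preadditive.add_comp]

lemma rr_smul {U V : C} (X : C) (c : ℚ) (z : U ⊗ V ⟶ U ⊗ V) : rr X (c • z) = c • rr X z := by
  simp only [rr, MonoidalLinear.smul_whiskerRight, Linear.comp_smul, Linear.smul_comp]

lemma ll_add {U V : C} (X : C) (z z' : U ⊗ V ⟶ U ⊗ V) : ll X (z + z') = ll X z + ll X z' := by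
  simp only [ll, MonoidalPreadditive.add_whiskerRight, Preadditive.comp_add, Preadditive.add_comp]

lemma ll_smul {U V : C} (X : C) (c : ℚ) (z : U ⊗ V ⟶ U ⊗ V) : ll X (c • z) = c • ll X z := by
  simp only [ll, MonoidalLinear.smul_whiskerRight, Linear.comp_smul, Linear.smul_comp]

/-- The (anti)symmetrizations of an operator on `U` and one factor `X`. -/
noncomputable def YY (a : ℚ) (U X : C) (g : U ⊗ tp X 1 ⟶ U ⊗ tp X 1) :
    ∀ k : ℕ, (U ⊗ tp X k ⟶ U ⊗ tp X k)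
  | 0 => 0
  | 1 => g
  | k + 2 => (U ◁ asym a X (k + 2)) ≫ rr X (YY a U X g (k + 1)) ≫ (U ◁ asym a X (k + 2))

lemma YY_zero (a : ℚ) (U X : C) (g : U ⊗ tp X 1 ⟶ U ⊗ tp X 1) : YY a U X g 0 = 0 := rfl

lemma YY_one (a : ℚ) (U X : C) (g : U ⊗ tp X 1 ⟶ U ⊗ tp X 1) : YY a U X g 1 = g := rfl

lemma YY_succ (a : ℚ) (U X : C) (g : U ⊗ tp X 1 ⟶ U ⊗ tp X 1) (k : ℕ) : YY a U X g (k + 2) =
    (U ◁ asym a X (k + 2)) ≫ rr X (YY a U X g (k + 1)) ≫ (U ◁ asym a X (k + 2)) := rfl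

lemma YY_absorb {a : ℚ} (ha : a * a = 1) (U X : C) (g : U ⊗ tp X 1 ⟶ U ⊗ tp X 1) (k : ℕ) :
    (U ◁ asym a X k) ≫ YY a U X g k = YY a U X g k ∧
    YY a U X g k ≫ (U ◁ asym a X k) = YY a U X g k := by
  rcases k with - | - | k
  · simp [YY_zero]
  · simp [YY_one, asym_one]
  · have h1 : (U ◁ asym a X (k + 2)) ≫ (U ◁ asym a X (k + 2)) = U ◁ asym a X (k + 2) := by
      rw [← MonoidalCategory.whiskerLeft_comp, asym_idem ha]
    rw [YY_succ]
    constructor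
    · rw [reassoc_of% h1]
    · rw [Category.assoc, Category.assoc, h1]

variable [RightRigidCategory C]

lemma ctr_add {U V X : C} (x y : U ⊗ (V ⊗ X) ⟶ U ⊗ (V ⊗ X)) : ctr (x + y) = ctr x + ctr y := by
  simp only [ctr, Preadditive.comp_add, Preadditive.add_comp, ptr_add]

lemma ctr_smul {U V X : C} (c : ℚ) (x : U ⊗ (V ⊗ X) ⟶ U ⊗ (V ⊗ X)) :
    ctr (c • x) = c • ctr x := by
  simp only [ctr, Linear.comp_smul, Linear.smul_comp, ptr_smul]

lemma ptr_whisker (hU : UnitQ C) {M X : C} (z : M ⟶ M) :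
    ptr (z ▷ X) = trq hU X (1 : End X) • z := by
  have h1 := ptr_tensor z (𝟙 X) _ (trq_spec hU (1 : End X))
  rwa [tensorHom_id] at h1

lemma ctr_rr (hU : UnitQ C) {U V X : C} (z : U ⊗ V ⟶ U ⊗ V) :
    ctr (rr X z) = trq hU X (1 : End X) • z := by
  have h1 : (α_ U V X).hom ≫ rr X z ≫ (α_ U V X).inv = z ▷ X := by simp [rr]
  rw [ctr, h1, ptr_whisker hU]

lemma ctr_right {U V X : C} (y : V ⊗ X ⟶ V ⊗ X) : ctr (U ◁ y) = U ◁ ptr y := by
  rw [ctr, ptr_assoc]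

lemma ptr_asym (hU : UnitQ C) {a : ℚ} (ha : a * a = 1) (X : C) (k : ℕ) :
    ptr (asym a X (k + 1)) = ((trq hU X (1 : End X) + a * k) / (k + 1)) • asym a X k := by
  rcases k with - | k
  · have h1 : asym a X 1 = (𝟙 (tp X 0)) ▷ X := by
      rw [asym_one, id_whiskerRight]
    have h2 := ptr_whisker hU (X := X) (𝟙 (tp X 0))
    rw [h1, h2, asym_zero]
    simp
  · rw [asym_succ, ptr_smul, ptr_add, ptr_smul, ptr_whisker hU, ptr_comp, ptr_sw, Category.id_comp,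
      asym_idem ha, ← add_smul, smul_smul]
    congr 1
    push_cast
    field_simp

lemma expand {X₀ : C} (b s z : X₀ ⟶ X₀) (h1 : b ≫ z = z) (h2 : z ≫ b = z) (c d e : ℚ)
    (hd : d * d = e) : (c • (b + d • (b ≫ s ≫ b))) ≫ z ≫ (c • (b + d • (b ≫ s ≫ b))) =
      (c * c) • (z + d • (z ≫ s ≫ b) + d • (b ≫ s ≫ z) + e • (b ≫ (s ≫ z ≫ s) ≫ b)) := by
  have e1 : z ≫ (b + d • (b ≫ s ≫ b)) = z + d • (z ≫ s ≫ b) := by
    rw [Preadditive.comp_add, Linear.comp_smul, h2, reassoc_of% h2]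
  have e2 : (b + d • (b ≫ s ≫ b)) ≫ (z + d • (z ≫ s ≫ b)) =
      z + d • (z ≫ s ≫ b) + d • (b ≫ s ≫ z) + e • (b ≫ (s ≫ z ≫ s) ≫ b) := by
    simp only [Preadditive.add_comp, Preadditive.comp_add, Linear.smul_comp, Linear.comp_smul,
      Category.assoc, h1, reassoc_of% h1]
    rw [← hd]
    module
  rw [Linear.comp_smul, e1, Linear.smul_comp, Linear.comp_smul, e2, smul_smul]

/-- The contraction of the last factor of the (anti)symmetrization. -/
lemma ctr_YY_aux (hU : UnitQ C) {a : ℚ} (ha : a * a = 1) (U X : C)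
    (g : U ⊗ tp X 1 ⟶ U ⊗ tp X 1) (k : ℕ) :
    ctr (YY a U X g (k + 2)) = (((k : ℚ) + 2)⁻¹ * ((k : ℚ) + 2)⁻¹) •
      ((trq hU X (1 : End X) + 2 * a * ((k : ℚ) + 1)) • YY a U X g (k + 1) +
        (((k : ℚ) + 1) * ((k : ℚ) + 1)) • ((U ◁ asym a X (k + 1)) ≫
          rr X (ctr (YY a U X g (k + 1))) ≫ (U ◁ asym a X (k + 1)))) := by
  obtain ⟨hz1, hz2⟩ := YY_absorb ha U X g (k + 1)
  set z := YY a U X g (k + 1) with hz
  set B := asym a X (k + 1) with hB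
  have hb : U ◁ (B ▷ X) = rr X (U ◁ B) := (rr_right X B).symm
  have e1 : U ◁ asym a X (k + 2) = ((k : ℚ) + 2)⁻¹ • (rr X (U ◁ B) +
      (a * ((k : ℚ) + 1)) • (rr X (U ◁ B) ≫ (U ◁ sw (tp X k) X) ≫ rr X (U ◁ B))) := by
    rw [asym_succ, MonoidalLinear.whiskerLeft_smul, MonoidalPreadditive.whiskerLeft_add,
      MonoidalLinear.whiskerLeft_smul, MonoidalCategory.whiskerLeft_comp,
      MonoidalCategory.whiskerLeft_comp, hb]
    push_cast
    congr 2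
    ring
  have f1 : rr X (U ◁ B) ≫ rr X z = rr X z := by rw [← rr_comp, hz1]
  have f2 : rr X z ≫ rr X (U ◁ B) = rr X z := by rw [← rr_comp, hz2]
  have e2 : YY a U X g (k + 2) = (((k : ℚ) + 2)⁻¹ * ((k : ℚ) + 2)⁻¹) • (rr X z +
      (a * ((k : ℚ) + 1)) • (rr X z ≫ (U ◁ sw (tp X k) X) ≫ rr X (U ◁ B)) +
      (a * ((k : ℚ) + 1)) • (rr X (U ◁ B) ≫ (U ◁ sw (tp X k) X) ≫ rr X z) +
      (((k : ℚ) + 1) * ((k : ℚ) + 1)) • (rr X (U ◁ B) ≫ ((U ◁ sw (tp X k) X) ≫ rr X z ≫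
        (U ◁ sw (tp X k) X)) ≫ rr X (U ◁ B))) := by
    rw [YY_succ, ← hz, e1]
    exact expand _ _ _ f1 f2 _ _ _ (by linear_combination (((k : ℚ) + 1) * ((k : ℚ) + 1)) * ha)
  have g1 : ctr (rr X z ≫ (U ◁ sw (tp X k) X) ≫ rr X (U ◁ B)) = z := by
    have h1 := ctr_comp (X := X) (𝟙 _) (U ◁ B) (rr X z ≫ (U ◁ sw (tp X k) X))
    have h2 : rr X (𝟙 (U ⊗ tp X (k + 1))) = 𝟙 _ := by simp [rr]
    rw [h2, Category.id_comp, Category.id_comp, ctr_sw, hz2, Category.assoc] at h1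
    exact h1
  have g2 : ctr (rr X (U ◁ B) ≫ (U ◁ sw (tp X k) X) ≫ rr X z) = z := by
    have h1 := ctr_comp (X := X) (U ◁ B) (𝟙 _) ((U ◁ sw (tp X k) X) ≫ rr X z)
    have h2 : rr X (𝟙 (U ⊗ tp X (k + 1))) = 𝟙 _ := by simp [rr]
    rw [h2, Category.comp_id, Category.comp_id, ctr_sw', hz1] at h1
    exact h1
  have g3 : ctr (rr X (U ◁ B) ≫ ((U ◁ sw (tp X k) X) ≫ rr X z ≫ (U ◁ sw (tp X k) X)) ≫
      rr X (U ◁ B)) = (U ◁ B) ≫ rr X (ctr z) ≫ (U ◁ B) := by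
    rw [ctr_comp, ctr_sw_conj]
  rw [e2, ctr_smul, ctr_add, ctr_add, ctr_add, ctr_smul, ctr_smul, ctr_smul, g1, g2, g3, ctr_rr hU]
  congr 1
  module

/-- The contraction of the last factor of the (anti)symmetrization. -/
lemma ctr_YY (hU : UnitQ C) {a : ℚ} (ha : a * a = 1) (U X : C)
    (g : U ⊗ tp X 1 ⟶ U ⊗ tp X 1) (hg : ctr g = 𝟙 _) (k : ℕ) :
    ctr (YY a U X g (k + 1)) = (((k : ℚ) * (trq hU X (1 : End X) + a * ((k : ℚ) + 1))) *
      (((k : ℚ) + 1)⁻¹ * ((k : ℚ) + 1)⁻¹)) • YY a U X g k +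
      (((k : ℚ) + 1)⁻¹ * ((k : ℚ) + 1)⁻¹) • (U ◁ asym a X k) := by
  induction k with
  | zero =>
    rw [YY_one, hg, YY_zero, asym_zero]
    simp
  | succ k ih =>
    have hk : ((k : ℚ) + 1) ≠ 0 := by positivity
    have h1 : (U ◁ asym a X (k + 1)) ≫ rr X (U ◁ asym a X k) ≫ (U ◁ asym a X (k + 1)) =
        U ◁ asym a X (k + 1) := by
      rw [rr_right, ← MonoidalCategory.whiskerLeft_comp, ← MonoidalCategory.whiskerLeft_comp,
        (absorb ha X k).1, asym_idem ha]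
    have h2 : (k : ℚ) • ((U ◁ asym a X (k + 1)) ≫ rr X (YY a U X g k) ≫
        (U ◁ asym a X (k + 1))) = (k : ℚ) • YY a U X g (k + 1) := by
      rcases k with - | k
      · simp
      · rw [← YY_succ]
    have h3 : (U ◁ asym a X (k + 1)) ≫ rr X (ctr (YY a U X g (k + 1))) ≫
        (U ◁ asym a X (k + 1)) =
        ((trq hU X (1 : End X) + a * ((k : ℚ) + 1)) * (((k : ℚ) + 1)⁻¹ * ((k : ℚ) + 1)⁻¹)) •
          ((k : ℚ) • YY a U X g (k + 1)) +
        (((k : ℚ) + 1)⁻¹ * ((k : ℚ) + 1)⁻¹) • (U ◁ asym a X (k + 1)) := by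
      rw [ih, rr_add, rr_smul, rr_smul]
      simp only [Preadditive.add_comp, Preadditive.comp_add, Linear.smul_comp, Linear.comp_smul]
      rw [h1, ← h2]
      congr 1
      rw [smul_smul]
      congr 1
      ring
    rw [ctr_YY_aux hU ha, h3]
    simp only [smul_add, smul_smul]
    rw [← add_assoc, ← add_smul]
    congr 1
    · congr 1
      push_cast
      field_simp
      ring
    · congr 1
      push_cast
      field_simp
      try ring

/-- The contraction of the second group. -/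
noncomputable def cf (U X : C) : ∀ k : ℕ, (U ⊗ tp X k ⟶ U ⊗ tp X k) →ₗ[ℚ]
    (U ⊗ tp X 0 ⟶ U ⊗ tp X 0)
  | 0 => LinearMap.id
  | k + 1 => cf U X k ∘ₗ
    { toFun := fun x => ctr x
      map_add' := ctr_add
      map_smul' := ctr_smul }

lemma cf_succ (U X : C) (k : ℕ) (x : U ⊗ tp X (k + 1) ⟶ U ⊗ tp X (k + 1)) :
    cf U X (k + 1) x = cf U X k (ctr x) := rfl

lemma cf_left {U X : C} (a b : U ⟶ U) (k : ℕ) (x : U ⊗ tp X k ⟶ U ⊗ tp X k) :
    cf U X k ((a ▷ tp X k) ≫ x ≫ (b ▷ tp X k)) =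
      (a ▷ tp X 0) ≫ cf U X k x ≫ (b ▷ tp X 0) := by
  induction k with
  | zero => rfl
  | succ k ih =>
    rw [cf_succ, ← rr_left, ← rr_left, ctr_comp, ih, cf_succ]

/-- The dimension of the symmetric or exterior power. -/
noncomputable def bb (t a : ℚ) (k : ℕ) : ℚ := ∏ j ∈ Finset.range k, ((t + a * j) / (j + 1))

lemma bb_succ (t a : ℚ) (k : ℕ) : bb t a (k + 1) = bb t a k * ((t + a * k) / (k + 1)) := by
  rw [bb, Finset.prod_range_succ, ← bb]

lemma cf_asym (hU : UnitQ C) {a : ℚ} (ha : a * a = 1) (U X : C) (k : ℕ) :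
    cf U X k (U ◁ asym a X k) = bb (trq hU X (1 : End X)) a k • 𝟙 _ := by
  induction k with
  | zero =>
    rw [asym_zero, MonoidalCategory.whiskerLeft_id]
    simp [cf, bb]
  | succ k ih =>
    rw [cf_succ, ctr_right, ptr_asym hU ha, MonoidalLinear.whiskerLeft_smul, map_smul, ih,
      smul_smul, bb_succ, mul_comm]

lemma cf_YY (hU : UnitQ C) {a : ℚ} (ha : a * a = 1) (U X : C)
    (g : U ⊗ tp X 1 ⟶ U ⊗ tp X 1) (hg : ctr g = 𝟙 _) (k : ℕ) :
    ∃ y : ℚ, cf U X k (YY a U X g k) = y • 𝟙 _ ∧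
      (1 ≤ k → trq hU X (1 : End X) * y = bb (trq hU X (1 : End X)) a k) := by
  induction k with
  | zero => exact ⟨0, by simp [YY_zero], by simp⟩
  | succ k ih =>
    obtain ⟨y, hy1, hy2⟩ := ih
    refine ⟨(((k : ℚ) * (trq hU X (1 : End X) + a * ((k : ℚ) + 1))) *
      (((k : ℚ) + 1)⁻¹ * ((k : ℚ) + 1)⁻¹)) * y +
      (((k : ℚ) + 1)⁻¹ * ((k : ℚ) + 1)⁻¹) * bb (trq hU X (1 : End X)) a k, ?_, fun _ => ?_⟩
    · rw [cf_succ, ctr_YY hU ha U X g hg, map_add, map_smul, map_smul, hy1, cf_asym hU ha,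
        smul_smul, smul_smul, ← add_smul]
    · have hk : ((k : ℚ) + 1) ≠ 0 := by positivity
      rw [bb_succ]
      rcases k with - | k
      · simp [bb]
      · have h1 := hy2 (by omega)
        rw [← h1]
        push_cast
        push_cast at hk
        field_simp
        ring

end

end Pool.Agent.Y97.PK
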